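import Mathlib
import Pool.Agent.Helper993.CS.Z2

/-!
Heights on a purely transcendental function field of three variables: `Rep K x z e` says that the
rational function `z` is a quotient of two forms of degree `e` in the homogeneous coordinates `x`.
-/

set_option autoImplicit false
open MvPolynomial

namespace Pool.Agent.Q58.DG
open Pool.Agent.Helper993.CS

universe u
variable {K L : Type u} [Field K] [Field L] [Algebra K L] {x : Fin 4 → L}

/-- `z` is a quotient of two forms of degree `e` -/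
def Rep (K : Type u) {L : Type u} [Field K] [Field L] [Algebra K L] (x : Fin 4 → L) (z : L)
    (e : ℕ) : Prop :=
  ∃ P Q : MvPolynomial (Fin 4) K, P.IsHomogeneous e ∧ Q.IsHomogeneous e ∧
    aeval x Q ≠ 0 ∧ z * aeval x Q = aeval x P

theorem inj_of (hx : Good K x) {P : MvPolynomial (Fin 4) K} {e : ℕ} (hP : P.IsHomogeneous e)
    (h0 : aeval x P = 0) : P = 0 := by
  have := hx.inf
  apply ff_inj hP
  have h1 : aeval x P = aeval (fun i : Fin 3 => x i.succ)
      (aeval (Fin.cons 1 X : Fin 4 → MvPolynomial (Fin 3) K) P) := by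
    rw [← AlgHom.comp_apply, comp_aeval]
    congr 2
    funext i
    refine Fin.cases ?_ (fun j => ?_) i
    · simp [hx.one]
    · simp
  rw [h1] at h0
  have h2 := (algebraicIndependent_iff.1 hx.ind) _ h0
  exact h2

theorem rep_mono (hx : Good K x) {z : L} {e e' : ℕ} (h : Rep K x z e) (hee : e ≤ e') :
    Rep K x z e' := by
  obtain ⟨P, Q, hP, hQ, hQ0, hz⟩ := h
  have hX : (X 0 ^ (e' - e) : MvPolynomial (Fin 4) K).IsHomogeneous (e' - e) := by
    simpa using (isHomogeneous_X K (0 : Fin 4)).pow (e' - e)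
  have hX1 : aeval x (X 0 ^ (e' - e) : MvPolynomial (Fin 4) K) = 1 := by
    simp [hx.one]
  have he : e + (e' - e) = e' := by omega
  refine ⟨P * X 0 ^ (e' - e), Q * X 0 ^ (e' - e), ?_, ?_, ?_, ?_⟩
  · have := hP.mul hX; rwa [he] at this
  · have := hQ.mul hX; rwa [he] at this
  · rw [map_mul, hX1, mul_one]; exact hQ0
  · rw [map_mul, map_mul, hX1, mul_one, mul_one]; exact hz

theorem rep_const (x : Fin 4 → L) (c : K) : Rep K x (algebraMap K L c) 0 := by
  refine ⟨C c, 1, isHomogeneous_C _ _, isHomogeneous_one _ _, ?_, ?_⟩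
  · rw [map_one]; exact one_ne_zero
  · rw [map_one, mul_one, aeval_C]

theorem rep_gen (hx : Good K x) (i : Fin 4) : Rep K x (x i) 1 := by
  refine ⟨X i, X 0, isHomogeneous_X _ _, isHomogeneous_X _ _, ?_, ?_⟩
  · rw [aeval_X, hx.one]; exact one_ne_zero
  · rw [aeval_X, aeval_X, hx.one, mul_one]

theorem rep_add {z w : L} {a b : ℕ} (hz : Rep K x z a) (hw : Rep K x w b) :
    Rep K x (z + w) (a + b) := by
  obtain ⟨P, Q, hP, hQ, hQ0, h1⟩ := hz
  obtain ⟨P', Q', hP', hQ', hQ0', h2⟩ := hw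
  refine ⟨P * Q' + Q * P', Q * Q', (hP.mul hQ').add (hQ.mul hP'), hQ.mul hQ', ?_, ?_⟩
  · rw [map_mul]; exact mul_ne_zero hQ0 hQ0'
  · rw [map_mul, map_add, map_mul, map_mul, ← h1, ← h2]; ring

theorem rep_mul {z w : L} {a b : ℕ} (hz : Rep K x z a) (hw : Rep K x w b) :
    Rep K x (z * w) (a + b) := by
  obtain ⟨P, Q, hP, hQ, hQ0, h1⟩ := hz
  obtain ⟨P', Q', hP', hQ', hQ0', h2⟩ := hw
  refine ⟨P * P', Q * Q', hP.mul hP', hQ.mul hQ', ?_, ?_⟩
  · rw [map_mul]; exact mul_ne_zero hQ0 hQ0'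
  · rw [map_mul, map_mul, ← h1, ← h2]; ring

theorem rep_neg {z : L} {a : ℕ} (hz : Rep K x z a) : Rep K x (-z) a := by
  obtain ⟨P, Q, hP, hQ, hQ0, h1⟩ := hz
  exact ⟨-P, Q, hP.neg, hQ, hQ0, by rw [map_neg, ← h1]; ring⟩

theorem rep_sub {z w : L} {a b : ℕ} (hz : Rep K x z a) (hw : Rep K x w b) :
    Rep K x (z - w) (a + b) := by
  rw [sub_eq_add_neg]; exact rep_add hz (rep_neg hw)

theorem rep_zero (hx : Good K x) (a : ℕ) : Rep K x 0 a := by
  have h := rep_const x (0 : K)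
  rw [map_zero] at h
  exact rep_mono hx h (Nat.zero_le _)

theorem rep_one (hx : Good K x) (a : ℕ) : Rep K x 1 a := by
  have h := rep_const x (1 : K)
  rw [map_one] at h
  exact rep_mono hx h (Nat.zero_le _)

theorem rep_nat (n : ℕ) : Rep K x (n : L) 0 := by
  have h := rep_const x (n : K)
  rwa [map_natCast] at h

theorem rep_inv (hx : Good K x) {z : L} {a : ℕ} (hz : Rep K x z a) : Rep K x z⁻¹ a := by
  by_cases h0 : z = 0
  · rw [h0, inv_zero]; exact rep_zero hx a
  obtain ⟨P, Q, hP, hQ, hQ0, h1⟩ := hz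
  refine ⟨Q, P, hQ, hP, ?_, ?_⟩
  · rw [← h1]; exact mul_ne_zero h0 hQ0
  · rw [← h1]; field_simp

theorem rep_div (hx : Good K x) {z w : L} {a b : ℕ} (hz : Rep K x z a) (hw : Rep K x w b) :
    Rep K x (z / w) (a + b) := by
  rw [div_eq_mul_inv]; exact rep_mul hz (rep_inv hx hw)

theorem rep_pow (hx : Good K x) {z : L} {a : ℕ} (hz : Rep K x z a) (n : ℕ) :
    Rep K x (z ^ n) (n * a) := by
  induction n with
  | zero => rw [pow_zero, Nat.zero_mul]; exact rep_one hx 0
  | succ n ih => rw [pow_succ, Nat.succ_mul]; exact rep_mul ih hz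

theorem rep_exists (hx : Good K x) (z : L) : ∃ e, Rep K x z e := by
  have hz : z ∈ IntermediateField.adjoin K (Set.range x) := by rw [hx.gen]; trivial
  induction hz using IntermediateField.adjoin_induction with
  | mem z hz =>
    obtain ⟨i, rfl⟩ := hz
    exact ⟨1, rep_gen hx i⟩
  | algebraMap c => exact ⟨0, rep_const x c⟩
  | add a b _ _ ha hb =>
    obtain ⟨m, ha⟩ := ha
    obtain ⟨n, hb⟩ := hb
    exact ⟨m + n, rep_add ha hb⟩
  | inv a _ ha =>
    obtain ⟨m, ha⟩ := ha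
    exact ⟨m, rep_inv hx ha⟩
  | mul a b _ _ ha hb =>
    obtain ⟨m, ha⟩ := ha
    obtain ⟨n, hb⟩ := hb
    exact ⟨m + n, rep_mul ha hb⟩

/-- a quotient of coprime forms of degree `m` is not a quotient of forms of smaller degree -/
theorem coprime_le (hx : Good K x) {P Q : MvPolynomial (Fin 4) K} {m e : ℕ}
    (hP : P.IsHomogeneous m) (hQ : Q.IsHomogeneous m) (hrel : IsRelPrime P Q)
    (hQ0 : aeval x Q ≠ 0) {z : L} (hz : z * aeval x Q = aeval x P) (h : Rep K x z e) : m ≤ e := by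
  obtain ⟨P1, Q1, hP1, hQ1, hQ10, h1⟩ := h
  have h2 : P * Q1 = P1 * Q := by
    have h3 : (P * Q1 - P1 * Q).IsHomogeneous (m + e) := by
      have h4 := hP1.mul hQ
      rw [Nat.add_comm] at h4
      exact (hP.mul hQ1).sub h4
    have h5 := inj_of hx h3 (by
      rw [map_sub, map_mul, map_mul, ← hz, ← h1]; ring)
    exact sub_eq_zero.1 h5
  have h6 : Q ∣ P * Q1 := ⟨P1, by rw [h2]; ring⟩
  have h7 : Q ∣ Q1 := hrel.symm.dvd_of_dvd_mul_left h6
  obtain ⟨S, hS⟩ := h7
  have hQ1ne : Q1 ≠ 0 := by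
    rintro rfl
    exact hQ10 (map_zero _)
  obtain ⟨a, b, hab, ha, hb⟩ := factor_hom (hS ▸ hQ1) (hS ▸ hQ1ne)
  have hQne : Q ≠ 0 := by
    rintro rfl
    exact hQ0 (map_zero _)
  have := ha.inj_right hQ hQne
  omega

/-- every rational function is a quotient of coprime forms -/
theorem exists_coprime (hx : Good K x) (z : L) : ∃ (m : ℕ) (P Q : MvPolynomial (Fin 4) K),
    P.IsHomogeneous m ∧ Q.IsHomogeneous m ∧ IsRelPrime P Q ∧ aeval x Q ≠ 0 ∧
      z * aeval x Q = aeval x P := by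
  classical
  have hex := rep_exists hx z
  obtain ⟨P, Q, hP, hQ, hQ0, hz⟩ := Nat.find_spec hex
  refine ⟨Nat.find hex, P, Q, hP, hQ, ?_, hQ0, hz⟩
  rintro q ⟨P', hP'⟩ ⟨Q', hQ'⟩
  have hQne : Q ≠ 0 := by
    rintro rfl
    exact hQ0 (map_zero _)
  obtain ⟨a, b, hab, ha, hb⟩ := factor_hom (hQ' ▸ hQ) (hQ' ▸ hQne)
  have hqne : q ≠ 0 := by
    rintro rfl
    exact hQne (by rw [hQ', zero_mul])
  have hPb : P'.IsHomogeneous b := by
    by_cases hP0 : P' = 0
    · rw [hP0]; exact isHomogeneous_zero _ _ _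
    · obtain ⟨a', b', hab', ha', hb'⟩ := factor_hom (hP' ▸ hP) (mul_ne_zero hqne hP0)
      have : a' = a := ha'.inj_right ha hqne
      have : b' = b := by omega
      rwa [← this]
  have hqx : aeval x q ≠ 0 := by
    intro h
    exact hQ0 (by rw [hQ', map_mul, h, zero_mul])
  have hrep : Rep K x z b := by
    refine ⟨P', Q', hPb, hb, ?_, ?_⟩
    · intro h
      exact hQ0 (by rw [hQ', map_mul, h, mul_zero])
    · apply mul_left_cancel₀ hqx
      rw [hP', hQ', map_mul, map_mul] at hz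
      rw [← hz]; ring
  have hle := Nat.find_min' hex hrep
  have ha0 : a = 0 := by omega
  subst ha0
  rw [← totalDegree_zero_iff_isHomogeneous, totalDegree_eq_zero_iff_eq_C] at ha
  rw [ha]
  apply IsUnit.map
  rw [isUnit_iff_ne_zero]
  intro h2
  rw [h2, map_zero] at ha
  exact hqne ha

theorem rep_of_sq (hx : Good K x) {z : L} {e : ℕ} (h : Rep K x (z ^ 2) e) : Rep K x z e := by
  obtain ⟨m, P, Q, hP, hQ, hrel, hQ0, hz⟩ := exists_coprime hx z
  have h1 : m * 2 ≤ e := by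
    apply coprime_le hx (hP.pow 2) (hQ.pow 2) (hrel.pow) _ _ h
    · rw [map_pow]; exact pow_ne_zero _ hQ0
    · rw [map_pow, map_pow, ← hz]; ring
  exact rep_mono hx ⟨P, Q, hP, hQ, hQ0, hz⟩ (by omega)

/-- the Lattès map of degree four multiplies heights by at least four -/
theorem rep_descent [CharZero K] (hx : Good K x) {z : L} {e : ℕ} (hz1 : z + 1 ≠ 0)
    (h : Rep K x (z * (z - 8) ^ 3 / (64 * (z + 1) ^ 3)) e) :
    ∃ e', 4 * e' ≤ e ∧ Rep K x z e' := by
  obtain ⟨m, P, Q, hP, hQ, hrel, hQ0, hz⟩ := exists_coprime hx z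
  refine ⟨m, ?_, P, Q, hP, hQ, hQ0, hz⟩
  have hcL : CharZero L := charZero_of_injective_algebraMap (algebraMap K L).injective
  have h8 : ∀ c : K, ((C c * Q : MvPolynomial (Fin 4) K)).IsHomogeneous m := by
    intro c
    have := (isHomogeneous_C (Fin 4) c).mul hQ
    rwa [zero_add] at this
  have hA : (P * (P - C 8 * Q) ^ 3).IsHomogeneous (m + m * 3) :=
    hP.mul ((hP.sub (h8 8)).pow 3)
  have hB : ((C 64 * Q) * (P + Q) ^ 3).IsHomogeneous (m + m * 3) :=
    (h8 64).mul ((hP.add hQ).pow 3)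
  have hC9 : ∀ c : K, c ≠ 0 → ∀ q : MvPolynomial (Fin 4) K, ∀ R, q ∣ C c * R → q ∣ R := by
    intro c hc q R hq
    have h1 : C c⁻¹ * (C c * R) = R := by
      rw [← mul_assoc, ← C_mul, inv_mul_cancel₀ hc, C_1, one_mul]
    rw [← h1]
    exact hq.mul_left _
  have r1 : IsRelPrime P (C 64 * Q) := fun q h1 h2 => hrel h1 (hC9 64 (by norm_num) q Q h2)
  have r2 : IsRelPrime P (P + Q) := fun q h1 h2 => hrel h1 ((dvd_add_right h1).1 h2)
  have r3 : IsRelPrime (P - C 8 * Q) (C 64 * Q) := by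
    intro q h1 h2
    have h3 := hC9 64 (by norm_num) q Q h2
    refine hrel ?_ h3
    have := dvd_add h1 (h3.mul_left (C 8))
    rwa [sub_add_cancel] at this
  have r4 : IsRelPrime (P - C 8 * Q) (P + Q) := by
    intro q h1 h2
    have h3 : q ∣ C 9 * Q := by
      have := dvd_sub h2 h1
      have h4 : P + Q - (P - C 8 * Q) = C 9 * Q := by
        have h5 : (C 9 : MvPolynomial (Fin 4) K) = C 8 + 1 := by
          rw [← C_1, ← C_add]; norm_num
        rw [h5]; ring
      rwa [h4] at this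
    have h6 := hC9 9 (by norm_num) q Q h3
    refine hrel ?_ h6
    have := dvd_sub h2 h6
    rwa [add_sub_cancel_right] at this
  have hR : IsRelPrime (P * (P - C 8 * Q) ^ 3) ((C 64 * Q) * (P + Q) ^ 3) := by
    apply IsRelPrime.mul_left
    · exact IsRelPrime.mul_right r1 (r2.pow_right)
    · apply IsRelPrime.pow_left
      exact IsRelPrime.mul_right r3 (r4.pow_right)
  have hPQ : aeval x (P + Q) ≠ 0 := by
    rw [map_add, ← hz]
    have : z * aeval x Q + aeval x Q = (z + 1) * aeval x Q := by ring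
    rw [this]
    exact mul_ne_zero hz1 hQ0
  have e8 : (aeval x (C 8 : MvPolynomial (Fin 4) K)) = (8 : L) := by
    rw [aeval_C]; exact map_ofNat _ 8
  have e64 : (aeval x (C 64 : MvPolynomial (Fin 4) K)) = (64 : L) := by
    rw [aeval_C]; exact map_ofNat _ 64
  have hfin := coprime_le hx hA hB hR (z := z * (z - 8) ^ 3 / (64 * (z + 1) ^ 3)) (by
    rw [map_mul, map_mul, map_pow, e64]
    exact mul_ne_zero (mul_ne_zero (by norm_num) hQ0) (pow_ne_zero _ hPQ)) (by
    rw [map_mul, map_mul, map_mul, map_pow, map_pow, map_add, map_sub, map_mul, e64, e8, ← hz]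
    field_simp) h
  omega

end Pool.Agent.Q58.DG
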