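import Mathlib
import Pool.Agent.Q58.DG.Ht

/-!
The group of points of `y^2 = x^3 + b` over a function field, with heights.
-/

set_option autoImplicit false
open MvPolynomial

namespace Pool.Agent.Q58.DG
open Pool.Agent.Helper993.CS

universe u
variable {L : Type u} [Field L]

/-- the curve `y^2 = x^3 + b` -/
def WC (b : L) : WeierstrassCurve.Affine L := ⟨0, 0, 0, 0, b⟩

theorem wc_eq (b x y : L) : (WC b).Equation x y ↔ y ^ 2 = x ^ 3 + b := by
  rw [WeierstrassCurve.Affine.equation_iff]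
  simp [WC]

theorem wc_ns [CharZero L] {b : L} (hb : b ≠ 0) {x y : L} :
    (WC b).Nonsingular x y ↔ y ^ 2 = x ^ 3 + b := by
  rw [← wc_eq, WeierstrassCurve.Affine.equation_iff_nonsingular_of_Δ_ne_zero]
  simp [WC, WeierstrassCurve.Δ, WeierstrassCurve.b₂, WeierstrassCurve.b₄, WeierstrassCurve.b₆,
    WeierstrassCurve.b₈, hb]

theorem wc_negY (b x y : L) : (WC b).negY x y = -y := by
  simp [WC, WeierstrassCurve.Affine.negY]

theorem wc_addX (b x1 x2 l : L) : (WC b).addX x1 x2 l = l ^ 2 - x1 - x2 := by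
  simp [WC, WeierstrassCurve.Affine.addX]

theorem wc_addY (b x1 x2 y1 l : L) :
    (WC b).addY x1 x2 y1 l = -(y1 + l * (l ^ 2 - x1 - x2 - x1)) := by
  simp [WC, WeierstrassCurve.Affine.addY, WeierstrassCurve.Affine.negAddY,
    WeierstrassCurve.Affine.negY, WeierstrassCurve.Affine.addX]
  ring

/-- chord addition: `(x1,y1) + (x2,y2) = (x3,y3)` with `x1 ≠ x2`, in polynomial form -/
def Chord (x1 y1 x2 y2 x3 y3 : L) : Prop :=
  x1 ≠ x2 ∧ (x1 - x2) ^ 2 * (x3 + x1 + x2) = (y1 - y2) ^ 2 ∧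
    (y3 + y1) * (x1 - x2) = -((y1 - y2) * (x3 - x1))

theorem Chord.map {x1 y1 x2 y2 x3 y3 : L} (h : Chord x1 y1 x2 y2 x3 y3) {F : Type*} [Field F]
    (φ : L →+* F) : Chord (φ x1) (φ y1) (φ x2) (φ y2) (φ x3) (φ y3) := by
  obtain ⟨h1, h2, h3⟩ := h
  refine ⟨fun h => h1 (φ.injective h), ?_, ?_⟩
  · simpa using congrArg φ h2
  · simpa using congrArg φ h3

theorem Chord.scale {x1 y1 x2 y2 x3 y3 s : L} (hs : s ≠ 0)
    (h : Chord (s ^ 2 * x1) (s ^ 3 * y1) (s ^ 2 * x2) (s ^ 3 * y2) x3 y3) :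
    Chord x1 y1 x2 y2 (x3 / s ^ 2) (y3 / s ^ 3) := by
  obtain ⟨h1, h2, h3⟩ := h
  refine ⟨fun h => h1 (by rw [h]), ?_, ?_⟩
  · apply mul_left_cancel₀ (pow_ne_zero 6 hs)
    have : s ^ 6 * ((x1 - x2) ^ 2 * (x3 / s ^ 2 + x1 + x2)) =
        (s ^ 2 * x1 - s ^ 2 * x2) ^ 2 * (x3 + s ^ 2 * x1 + s ^ 2 * x2) := by
      field_simp
    rw [this, h2]; ring
  · apply mul_left_cancel₀ (pow_ne_zero 5 hs)
    have e1 : s ^ 5 * ((y3 / s ^ 3 + y1) * (x1 - x2)) =
        (y3 + s ^ 3 * y1) * (s ^ 2 * x1 - s ^ 2 * x2) := by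
      field_simp
    have e2 : s ^ 5 * (-((y1 - y2) * (x3 / s ^ 2 - x1))) =
        -((s ^ 3 * y1 - s ^ 3 * y2) * (x3 - s ^ 2 * x1)) := by
      field_simp
    rw [e1, e2, h3]

theorem Chord.eqs {x1 y1 x2 y2 x3 y3 : L} (h : Chord x1 y1 x2 y2 x3 y3) :
    x3 = ((y1 - y2) / (x1 - x2)) ^ 2 - x1 - x2 ∧
      y3 = -(y1 + (y1 - y2) / (x1 - x2) * (x3 - x1)) := by
  obtain ⟨h1, h2, h3⟩ := h
  have h4 : x1 - x2 ≠ 0 := sub_ne_zero.2 h1
  constructor
  · field_simp
    linear_combination h2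
  · field_simp
    linear_combination h3

open Classical in
/-- the chord relation is addition in the group of points -/
theorem Chord.add [CharZero L] {b : L} (hb : b ≠ 0) {x1 y1 x2 y2 x3 y3 : L}
    (h : Chord x1 y1 x2 y2 x3 y3)
    (h1 : (WC b).Nonsingular x1 y1) (h2 : (WC b).Nonsingular x2 y2) :
    ∃ h3 : (WC b).Nonsingular x3 y3,
      (WeierstrassCurve.Affine.Point.some x1 y1 h1 : (WC b).Point) +
        WeierstrassCurve.Affine.Point.some x2 y2 h2 =
        WeierstrassCurve.Affine.Point.some x3 y3 h3 := by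
  obtain ⟨e1, e2⟩ := h.eqs
  have hne := h.1
  have hadd := WeierstrassCurve.Affine.Point.add_of_X_ne (W := WC b) (h₁ := h1) (h₂ := h2) hne
  have hs : (WC b).slope x1 x2 y1 y2 = (y1 - y2) / (x1 - x2) :=
    WeierstrassCurve.Affine.slope_of_X_ne hne
  have hX : (WC b).addX x1 x2 ((WC b).slope x1 x2 y1 y2) = x3 := by
    rw [wc_addX, hs, ← e1]
  have hY : (WC b).addY x1 x2 y1 ((WC b).slope x1 x2 y1 y2) = y3 := by
    rw [wc_addY, hs, e2, e1]
  have h3 : (WC b).Nonsingular x3 y3 := by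
    rw [← hX, ← hY]
    exact WeierstrassCurve.Affine.nonsingular_add h1 h2 (fun hxy => hne hxy.1)
  refine ⟨h3, ?_⟩
  rw [hadd]
  congr 1

variable {K : Type u} [Field K] [Algebra K L] {x : Fin 4 → L}

/-- both coordinates of the point have height at most `e` -/
def HtLe (K : Type u) [Field K] [Algebra K L] (x : Fin 4 → L) {b : L} : (WC b).Point → ℕ → Prop
  | .zero, _ => True
  | .some a c _, e => Rep K x a e ∧ Rep K x c e

theorem htLe_mono (hx : Good K x) {b : L} {P : (WC b).Point} {e e' : ℕ} (h : HtLe K x P e)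
    (hee : e ≤ e') : HtLe K x P e' := by
  cases P with
  | zero => trivial
  | some a c h' => exact ⟨rep_mono hx h.1 hee, rep_mono hx h.2 hee⟩

theorem htLe_neg {b : L} {P : (WC b).Point} {e : ℕ} (h : HtLe K x P e) : HtLe K x (-P) e := by
  cases P with
  | zero => trivial
  | some a c h' =>
    rw [WeierstrassCurve.Affine.Point.neg_some]
    refine ⟨h.1, ?_⟩
    rw [wc_negY]
    exact rep_neg h.2

open Classical in
theorem htLe_add (hx : Good K x) {b : L} {P Q : (WC b).Point} {e f : ℕ} (hP : HtLe K x P e)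
    (hQ : HtLe K x Q f) : HtLe K x (P + Q) (13 * (e + f)) := by
  cases P with
  | zero =>
    rw [← WeierstrassCurve.Affine.Point.zero_def, zero_add]
    exact htLe_mono hx hQ (by omega)
  | some x1 y1 h1 =>
    cases Q with
    | zero =>
      rw [← WeierstrassCurve.Affine.Point.zero_def, add_zero]
      exact htLe_mono hx hP (by omega)
    | some x2 y2 h2 =>
      by_cases hxy : x1 = x2 ∧ y1 = (WC b).negY x2 y2
      · rw [WeierstrassCurve.Affine.Point.add_of_Y_eq hxy.1 hxy.2]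
        trivial
      · rw [WeierstrassCurve.Affine.Point.add_some hxy]
        have hl : Rep K x ((WC b).slope x1 x2 y1 y2) (3 * (e + f)) := by
          by_cases hxx : x1 = x2
          · have hy : y1 ≠ (WC b).negY x2 y2 := fun h => hxy ⟨hxx, h⟩
            rw [WeierstrassCurve.Affine.slope_of_Y_ne hxx hy, wc_negY]
            have e1 : (3 * x1 ^ 2 + 2 * (WC b).a₂ * x1 + (WC b).a₄ - (WC b).a₁ * y1) =
                ((3 : ℕ) : L) * x1 ^ 2 := by
              simp [WC]
            rw [e1]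
            have r1 := rep_mul (rep_nat (K := K) (x := x) 3) (rep_pow hx hP.1 2)
            have e2 : y1 - -y1 = ((2 : ℕ) : L) * y1 := by push_cast; ring
            rw [e2]
            have r2 := rep_mul (rep_nat (K := K) (x := x) 2) hP.2
            exact rep_mono hx (rep_div hx r1 r2) (by omega)
          · rw [WeierstrassCurve.Affine.slope_of_X_ne hxx]
            exact rep_mono hx (rep_div hx (rep_sub hP.2 hQ.2) (rep_sub hP.1 hQ.1)) (by omega)
        constructor
        · rw [wc_addX]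
          exact rep_mono hx (rep_sub (rep_sub (rep_pow hx hl 2) hP.1) hQ.1) (by omega)
        · rw [wc_addY]
          exact rep_mono hx (rep_neg (rep_add hP.2 (rep_mul hl
            (rep_sub (rep_sub (rep_sub (rep_pow hx hl 2) hP.1) hQ.1) hP.1)))) (by omega)

end Pool.Agent.Q58.DG
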