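import Mathlib
import Pool.Agent.Q58.DG.Curve

/-!
Multiples of a point of `y^2 = x^3 + b`: polynomial upper bound and exponential-in-`log` lower
bound for the heights.
-/

set_option autoImplicit false
open MvPolynomial

namespace Pool.Agent.Q58.DG
open Pool.Agent.Helper993.CS

universe u
variable {K L : Type u} [Field K] [Field L] [Algebra K L] {x : Fin 4 → L}

open Classical in
theorem htLe_nsmul (hx : Good K x) {b : L} {P : (WC b).Point} {e : ℕ} (hP : HtLe K x P e) :
    ∀ m : ℕ, 1 ≤ m → HtLe K x (m • P) ((2 * m) ^ 9 * e) := by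
  intro m
  induction m using Nat.strong_induction_on with
  | _ m ih =>
    intro hm
    rcases Nat.even_or_odd' m with ⟨k, hk | hk⟩
    · have hk1 : 1 ≤ k := by omega
      have h1 := ih k (by omega) hk1
      have h2 := htLe_add hx h1 h1
      have h3 : m • P = k • P + k • P := by rw [← add_smul]; congr 1; omega
      rw [h3]
      refine htLe_mono hx h2 ?_
      rw [hk]
      have : (2 * (2 * k)) ^ 9 * e = 512 * ((2 * k) ^ 9 * e) := by ring
      rw [this]
      nlinarith [Nat.zero_le ((2 * k) ^ 9 * e)]
    · rcases Nat.eq_zero_or_pos k with h0 | h0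
      · subst h0
        have : m = 1 := by omega
        subst this
        rw [one_smul]
        exact htLe_mono hx hP (by norm_num; omega)
      · have h1 := ih k (by omega) h0
        have h2 := htLe_add hx h1 h1
        have h3 := htLe_add hx h2 hP
        have h4 : m • P = k • P + k • P + P := by
          rw [← add_smul, ← succ_nsmul]; congr 1; omega
        rw [h4]
        refine htLe_mono hx h3 ?_
        have h5 : (2 * (2 * k)) ^ 9 * e ≤ (2 * m) ^ 9 * e :=
          Nat.mul_le_mul_right _ (Nat.pow_le_pow_left (by omega) 9)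
        have h6 : (2 * (2 * k)) ^ 9 * e = 512 * ((2 * k) ^ 9 * e) := by ring
        have h7 : 1 ≤ (2 * k) ^ 9 := Nat.one_le_pow _ _ (by omega)
        have h8 : e ≤ (2 * k) ^ 9 * e := Nat.le_mul_of_pos_left e h7
        rw [h6] at h5
        omega

/-- duplication formula for `x^3/b` -/
theorem dbl_formula [CharZero L] {b a c l : L} (hb : b ≠ 0) (hc : c ≠ 0)
    (h : c ^ 2 = a ^ 3 + b) (hl : l = 3 * a ^ 2 / (2 * c)) :
    (l ^ 2 - a - a) ^ 3 / b = (a ^ 3 / b) * (a ^ 3 / b - 8) ^ 3 / (64 * (a ^ 3 / b + 1) ^ 3) := by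
  have h1 : a ^ 3 / b + 1 = c ^ 2 / b := by rw [h]; field_simp
  have h2 : l ^ 2 - a - a = a * (a ^ 3 - 8 * b) / (4 * c ^ 2) := by
    rw [hl]
    field_simp
    rw [h]
    ring
  rw [h1, h2]
  have h3 : a ^ 3 / b - 8 = (a ^ 3 - 8 * b) / b := by field_simp
  rw [h3]
  field_simp
  ring

open Classical in
theorem eta_lower [CharZero K] [CharZero L] (hx : Good K x) {b : L} (hb : b ≠ 0) {a c : L}
    (hP : (WC b).Nonsingular a c) (hnc : ¬ Rep K x (a ^ 3 / b) 0) :
    ∀ j : ℕ, ∃ (a' c' : L) (h' : (WC b).Nonsingular a' c'),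
      (2 ^ j) • (WeierstrassCurve.Affine.Point.some a c hP : (WC b).Point) =
        WeierstrassCurve.Affine.Point.some a' c' h' ∧
      ∀ e, Rep K x (a' ^ 3 / b) e → 4 ^ j ≤ e := by
  intro j
  induction j with
  | zero =>
    refine ⟨a, c, hP, by rw [pow_zero, one_smul], fun e he => ?_⟩
    rw [pow_zero]
    by_contra h
    have : e = 0 := by omega
    subst this
    exact hnc he
  | succ j ih =>
    obtain ⟨a', c', h', heq, hlow⟩ := ih
    have heqn := (wc_ns hb).1 h'
    have hc' : c' ≠ 0 := by
      intro h0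
      have h1 : a' ^ 3 / b = -1 := by
        rw [h0] at heqn
        have : a' ^ 3 = -b := by linear_combination -heqn
        rw [this]; field_simp
      have h2 : Rep K x (a' ^ 3 / b) 0 := by
        rw [h1]
        exact rep_neg (rep_one hx 0)
      have := hlow 0 h2
      have h4 : 0 < 4 ^ j := by positivity
      omega
    have hY : c' ≠ (WC b).negY a' c' := by
      rw [wc_negY]
      intro h
      apply hc'
      have h2 : (2 : L) * c' = 0 := by linear_combination h
      rcases mul_eq_zero.1 h2 with h3 | h3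
      · exact absurd h3 two_ne_zero
      · exact h3
    have hsl : (WC b).slope a' a' c' c' = 3 * a' ^ 2 / (2 * c') := by
      rw [WeierstrassCurve.Affine.slope_of_Y_ne rfl hY, wc_negY]
      have e1 : (3 * a' ^ 2 + 2 * (WC b).a₂ * a' + (WC b).a₄ - (WC b).a₁ * c') = 3 * a' ^ 2 := by
        simp [WC]
      rw [e1]
      congr 1
      ring
    have hdbl := WeierstrassCurve.Affine.Point.add_self_of_Y_ne (W := WC b) (h₁ := h') hY
    refine ⟨(WC b).addX a' a' ((WC b).slope a' a' c' c'),
      (WC b).addY a' a' c' ((WC b).slope a' a' c' c'),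
      WeierstrassCurve.Affine.nonsingular_add h' h' (fun hxy => hY hxy.2), ?_, fun e he => ?_⟩
    · rw [pow_succ, mul_comm, mul_smul, heq, two_smul]
      exact hdbl
    · have h3 : a' ^ 3 / b + 1 ≠ 0 := by
        have : a' ^ 3 / b + 1 = c' ^ 2 / b := by rw [heqn]; field_simp
        rw [this]
        exact div_ne_zero (pow_ne_zero _ hc') hb
      rw [wc_addX, dbl_formula hb hc' heqn hsl] at he
      obtain ⟨e', he', hr⟩ := rep_descent hx h3 he
      have := hlow e' hr
      rw [pow_succ]
      omega

end Pool.Agent.Q58.DG
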