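import Mathlib
import Pool.Agent.Q58.DG.Mul

/-!
The iterates of the unipotent map on triples of points of `y^2 = x^3 + b`.
-/

set_option autoImplicit false
open MvPolynomial

namespace Pool.Agent.Q58.DG
open Pool.Agent.Helper993.CS

universe u
variable {K L : Type u} [Field K] [Field L] [Algebra K L]

/-- the data of the map: three points of `y^2 = x^3 + b`, on which `φ` acts by
`(P1, P2, P3) ↦ (P1, P1 + P2, P2 + P3)` up to the scaling `σ` -/
structure Dat (x : Fin 4 → L) (φ : L →ₐ[K] L) (b x1 y1 x2 y2 x3 y3 x12 y12 x23 y23 σ : L) :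
    Prop where
  hb : b ≠ 0
  hσ : σ ≠ 0
  hx1 : x1 ≠ 0
  h13 : x3 ≠ x1
  e1 : y1 ^ 2 = x1 ^ 3 + b
  e2 : y2 ^ 2 = x2 ^ 3 + b
  e3 : y3 ^ 2 = x3 ^ 3 + b
  hsl : y2 - y1 = x2 - x1
  c12 : Chord x1 y1 x2 y2 x12 y12
  c23 : Chord x2 y2 x3 y3 x23 y23
  pb : φ b = σ ^ 6 * b
  p1 : φ x1 = σ ^ 2 * x1
  q1 : φ y1 = σ ^ 3 * y1
  p2 : φ x2 = σ ^ 2 * x12
  q2 : φ y2 = σ ^ 3 * y12
  p3 : φ x3 = σ ^ 2 * x23
  q3 : φ y3 = σ ^ 3 * y23
  t1 : x 1 = (y3 - y1) / (x3 - x1)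
  t2 : x 2 = x2 / x1
  t3 : x 3 = x3 / x1

variable {x : Fin 4 → L} {φ : L →ₐ[K] L} {b x1 y1 x2 y2 x3 y3 x12 y12 x23 y23 σ : L}

open Classical in
theorem Dat.iter_pts [CharZero L]
    (D : Dat x φ b x1 y1 x2 y2 x3 y3 x12 y12 x23 y23 σ)
    (h1 : (WC b).Nonsingular x1 y1) (h2 : (WC b).Nonsingular x2 y2)
    (h3 : (WC b).Nonsingular x3 y3) (n : ℕ) :
    ∃ (s X2 Y2 X3 Y3 : L) (k2 : (WC b).Nonsingular X2 Y2) (k3 : (WC b).Nonsingular X3 Y3),
      s ≠ 0 ∧ φ^[n] b = s ^ 6 * b ∧ φ^[n] x1 = s ^ 2 * x1 ∧ φ^[n] y1 = s ^ 3 * y1 ∧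
      φ^[n] x2 = s ^ 2 * X2 ∧ φ^[n] y2 = s ^ 3 * Y2 ∧ φ^[n] x3 = s ^ 2 * X3 ∧
      φ^[n] y3 = s ^ 3 * Y3 ∧
      (WeierstrassCurve.Affine.Point.some X2 Y2 k2 : (WC b).Point) =
        WeierstrassCurve.Affine.Point.some x2 y2 h2 +
          n • WeierstrassCurve.Affine.Point.some x1 y1 h1 ∧
      (WeierstrassCurve.Affine.Point.some X3 Y3 k3 : (WC b).Point) =
        WeierstrassCurve.Affine.Point.some x3 y3 h3 +
          n • WeierstrassCurve.Affine.Point.some x2 y2 h2 +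
          (n.choose 2) • WeierstrassCurve.Affine.Point.some x1 y1 h1 := by
  have hinj : ∀ n : ℕ, Function.Injective (φ^[n]) := fun n => φ.toRingHom.injective.iterate n
  have hmul : ∀ (n : ℕ) (a c : L), φ^[n] (a * c) = φ^[n] a * φ^[n] c := fun n a c =>
    iterate_map_mul φ n a c
  have hpow : ∀ (n : ℕ) (a : L) (k : ℕ), φ^[n] (a ^ k) = (φ^[n] a) ^ k := fun n a k =>
    iterate_map_pow φ n a k
  have hchord : ∀ (n : ℕ) {a1 c1 a2 c2 a3 c3 : L}, Chord a1 c1 a2 c2 a3 c3 →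
      Chord (φ^[n] a1) (φ^[n] c1) (φ^[n] a2) (φ^[n] c2) (φ^[n] a3) (φ^[n] c3) := by
    intro n
    induction n with
    | zero => intro _ _ _ _ _ _ h; exact h
    | succ n ih =>
      intro a1 c1 a2 c2 a3 c3 h
      simp only [Function.iterate_succ, Function.comp_apply]
      exact ih (h.map φ.toRingHom)
  induction n with
  | zero =>
    refine ⟨1, x2, y2, x3, y3, h2, h3, one_ne_zero, ?_, ?_, ?_, ?_, ?_, ?_, ?_, ?_, ?_⟩ <;> simp
  | succ n ih =>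
    obtain ⟨s, X2, Y2, X3, Y3, k2, k3, hs, fb, f1, g1, f2, g2, f3, g3, E2, E3⟩ := ih
    have hτ0 : φ^[n] σ ≠ 0 := by
      intro h
      apply D.hσ
      apply hinj n
      rw [h, iterate_map_zero]
    -- the chords of the `n`-th iterate
    have C1 := hchord n D.c12
    rw [f1, g1, f2, g2] at C1
    have C1' := C1.scale hs
    obtain ⟨m2, A2⟩ := C1'.add D.hb h1 k2
    have C2 := hchord n D.c23
    rw [f2, g2, f3, g3] at C2
    have C2' := C2.scale hs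
    obtain ⟨m3, A3⟩ := C2'.add D.hb k2 k3
    refine ⟨φ^[n] σ * s, φ^[n] x12 / s ^ 2, φ^[n] y12 / s ^ 3, φ^[n] x23 / s ^ 2,
      φ^[n] y23 / s ^ 3, m2, m3, mul_ne_zero hτ0 hs, ?_, ?_, ?_, ?_, ?_, ?_, ?_, ?_, ?_⟩
    · rw [Function.iterate_succ, Function.comp_apply, D.pb, hmul, hpow, fb]; ring
    · rw [Function.iterate_succ, Function.comp_apply, D.p1, hmul, hpow, f1]; ring
    · rw [Function.iterate_succ, Function.comp_apply, D.q1, hmul, hpow, g1]; ring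
    · rw [Function.iterate_succ, Function.comp_apply, D.p2, hmul, hpow]; field_simp
    · rw [Function.iterate_succ, Function.comp_apply, D.q2, hmul, hpow]; field_simp
    · rw [Function.iterate_succ, Function.comp_apply, D.p3, hmul, hpow]; field_simp
    · rw [Function.iterate_succ, Function.comp_apply, D.q3, hmul, hpow]; field_simp
    · rw [← A2, E2, succ_nsmul]; abel
    · rw [← A3, E2, E3, succ_nsmul, Nat.choose_succ_left _ _ (by norm_num : 0 < 2),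
        Nat.choose_one_right, add_smul]
      abel

end Pool.Agent.Q58.DG
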