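import Mathlib
import Pool.Agent.Q58.DG.Orbit

/-!
Upper and lower bounds for the heights of the coordinates of the iterates.
-/

set_option autoImplicit false
open MvPolynomial

namespace Pool.Agent.Q58.DG
open Pool.Agent.Helper993.CS

universe u
variable {K L : Type u} [Field K] [Field L] [Algebra K L]
variable {x : Fin 4 → L} {φ : L →ₐ[K] L} {b x1 y1 x2 y2 x3 y3 x12 y12 x23 y23 σ : L}

theorem ht_data (hx : Good K x) (b x1 y1 x2 y2 x3 y3 : L) : ∃ e, Rep K x b e ∧ Rep K x x1 e ∧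
    Rep K x y1 e ∧ Rep K x x2 e ∧ Rep K x y2 e ∧ Rep K x x3 e ∧ Rep K x y3 e := by
  obtain ⟨a0, h0⟩ := rep_exists hx b
  obtain ⟨a1, h1⟩ := rep_exists hx x1
  obtain ⟨a2, h2⟩ := rep_exists hx y1
  obtain ⟨a3, h3⟩ := rep_exists hx x2
  obtain ⟨a4, h4⟩ := rep_exists hx y2
  obtain ⟨a5, h5⟩ := rep_exists hx x3
  obtain ⟨a6, h6⟩ := rep_exists hx y3
  exact ⟨a0 + a1 + a2 + a3 + a4 + a5 + a6, rep_mono hx h0 (by omega), rep_mono hx h1 (by omega),
    rep_mono hx h2 (by omega), rep_mono hx h3 (by omega), rep_mono hx h4 (by omega),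
    rep_mono hx h5 (by omega), rep_mono hx h6 (by omega)⟩

theorem Dat.upper [CharZero L] (hx : Good K x)
    (D : Dat x φ b x1 y1 x2 y2 x3 y3 x12 y12 x23 y23 σ) :
    ∃ C : ℕ, ∀ n : ℕ, 1 ≤ n → ∀ i, Rep K x (φ^[n] (x i)) (C * n ^ 18) := by
  classical
  obtain ⟨e, rb, r1, s1, r2, s2, r3, s3⟩ := ht_data hx b x1 y1 x2 y2 x3 y3
  have h1 := (wc_ns D.hb).2 D.e1
  have h2 := (wc_ns D.hb).2 D.e2
  have h3 := (wc_ns D.hb).2 D.e3
  have hP1 : HtLe K x (WeierstrassCurve.Affine.Point.some x1 y1 h1 : (WC b).Point) e := ⟨r1, s1⟩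
  have hP2 : HtLe K x (WeierstrassCurve.Affine.Point.some x2 y2 h2 : (WC b).Point) e := ⟨r2, s2⟩
  have hP3 : HtLe K x (WeierstrassCurve.Affine.Point.some x3 y3 h3 : (WC b).Point) e := ⟨r3, s3⟩
  have hinj : ∀ n : ℕ, Function.Injective (φ^[n]) := fun n => φ.toRingHom.injective.iterate n
  refine ⟨400000 * (e + 1), fun n hn i => ?_⟩
  obtain ⟨s, X2, Y2, X3, Y3, k2, k3, hs, fb, f1, g1, f2, g2, f3, g3, E2, E3⟩ :=
    D.iter_pts h1 h2 h3 n
  have hn9 : 1 ≤ n ^ 9 := Nat.one_le_pow _ _ hn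
  have hn18 : n ^ 9 ≤ n ^ 18 := Nat.pow_le_pow_right hn (by norm_num)
  have H2 : HtLe K x (WeierstrassCurve.Affine.Point.some X2 Y2 k2 : (WC b).Point)
      (13 * (e + 512 * n ^ 9 * e)) := by
    rw [E2]
    refine htLe_mono hx (htLe_add hx hP2 (htLe_nsmul hx hP1 n hn)) ?_
    apply le_of_eq
    ring
  have H3 : HtLe K x (WeierstrassCurve.Affine.Point.some X3 Y3 k3 : (WC b).Point)
      (13 * (13 * (e + 512 * n ^ 9 * e) + n ^ 18 * e)) := by
    rw [E3]
    apply htLe_add hx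
    · refine htLe_mono hx (htLe_add hx hP3 (htLe_nsmul hx hP2 n hn)) ?_
      apply le_of_eq
      ring
    · rcases Nat.eq_zero_or_pos (n.choose 2) with h0 | h0
      · rw [h0, zero_smul]
        exact trivial
      · refine htLe_mono hx (htLe_nsmul hx hP1 _ h0) ?_
        apply Nat.mul_le_mul_right
        have h4 : 2 * n.choose 2 ≤ n ^ 2 := by
          rw [Nat.choose_two_right]
          have := Nat.mul_div_le (n * (n - 1)) 2
          have h5 : n * (n - 1) ≤ n ^ 2 := by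
            rw [pow_two]; exact Nat.mul_le_mul_left _ (Nat.sub_le _ _)
          omega
        calc (2 * n.choose 2) ^ 9 ≤ (n ^ 2) ^ 9 := Nat.pow_le_pow_left h4 9
          _ = n ^ 18 := by ring
  have a2 := H2.1
  have b2 := H2.2
  have a3 := H3.1
  have b3 := H3.2
  have hne2 : X2 ≠ x1 := by
    intro h
    apply D.c12.1
    apply hinj n
    rw [f1, f2, h]
  have hne3 : X3 ≠ x1 := by
    intro h
    apply D.h13
    apply hinj n
    rw [f1, f3, h]
  have hssl : s ^ 3 * (Y2 - y1) = s ^ 2 * (X2 - x1) := by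
    have h4 := congrArg (φ^[n]) D.hsl
    have hsub : ∀ a c : L, φ^[n] (a - c) = φ^[n] a - φ^[n] c := fun a c => iterate_map_sub φ n a c
    rw [hsub, hsub, g2, g1, f2, f1] at h4
    linear_combination h4
  have hsl2 : s * (Y2 - y1) = X2 - x1 := by
    apply mul_left_cancel₀ (pow_ne_zero 2 hs)
    linear_combination hssl
  have hY2 : Y2 - y1 ≠ 0 := by
    intro h
    rw [h, mul_zero] at hsl2
    exact hne2 (sub_eq_zero.1 hsl2.symm)
  have hs' : s = (X2 - x1) / (Y2 - y1) := by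
    rw [eq_div_iff hY2]; exact hsl2
  have hdiv : ∀ a c : L, φ^[n] (a / c) = φ^[n] a / φ^[n] c := by
    intro a c
    have : ∀ m : ℕ, φ^[m] (a / c) = φ^[m] a / φ^[m] c := by
      intro m
      induction m with
      | zero => rfl
      | succ m ih => rw [Function.iterate_succ_apply', Function.iterate_succ_apply',
          Function.iterate_succ_apply', ih, map_div₀]
    exact this n
  have hsub : ∀ a c : L, φ^[n] (a - c) = φ^[n] a - φ^[n] c := fun a c => iterate_map_sub φ n a c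
  have hb1 : e ≤ n ^ 18 * e := Nat.le_mul_of_pos_left _ (by positivity)
  have hb2 : n ^ 9 * e ≤ n ^ 18 * e := Nat.mul_le_mul_right _ hn18
  have hb3 : 400000 * (e + 1) * n ^ 18 = 400000 * (n ^ 18 * e) + 400000 * n ^ 18 := by ring
  have hb4 : 512 * n ^ 9 * e = 512 * (n ^ 9 * e) := by ring
  have hp : 0 < n ^ 18 := by positivity
  rw [hb4] at a2 b2 a3 b3
  fin_cases i
  · show Rep K x (φ^[n] (x 0)) _
    rw [hx.one, iterate_map_one]
    exact rep_one hx _
  · show Rep K x (φ^[n] (x 1)) _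
    rw [D.t1, hdiv, hsub, hsub, g3, g1, f3, f1]
    have h5 : (s ^ 3 * Y3 - s ^ 3 * y1) / (s ^ 2 * X3 - s ^ 2 * x1) =
        ((X2 - x1) / (Y2 - y1)) * ((Y3 - y1) / (X3 - x1)) := by
      rw [← hs']
      have h6 : X3 - x1 ≠ 0 := sub_ne_zero.2 hne3
      have h7 : s ^ 2 * X3 - s ^ 2 * x1 = s ^ 2 * (X3 - x1) := by ring
      rw [h7]
      field_simp
    rw [h5]
    refine rep_mono hx (rep_mul (rep_div hx (rep_sub a2 r1) (rep_sub b2 s1))
      (rep_div hx (rep_sub b3 s1) (rep_sub a3 r1))) ?_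
    rw [hb3]
    omega
  · show Rep K x (φ^[n] (x 2)) _
    rw [D.t2, hdiv, f2, f1]
    have h5 : s ^ 2 * X2 / (s ^ 2 * x1) = X2 / x1 := by
      have := D.hx1
      field_simp
    rw [h5]
    refine rep_mono hx (rep_div hx a2 r1) ?_
    rw [hb3]
    omega
  · show Rep K x (φ^[n] (x 3)) _
    rw [D.t3, hdiv, f3, f1]
    have h5 : s ^ 2 * X3 / (s ^ 2 * x1) = X3 / x1 := by
      have := D.hx1
      field_simp
    rw [h5]
    refine rep_mono hx (rep_div hx a3 r1) ?_
    rw [hb3]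
    omega

theorem Dat.lower [CharZero K] [CharZero L] (hx : Good K x)
    (D : Dat x φ b x1 y1 x2 y2 x3 y3 x12 y12 x23 y23 σ) (hnc : ¬ Rep K x (x1 ^ 3 / b) 0)
    (d : ℕ → ℕ) (hd : ∀ n, Rep K x (φ^[n] (x 3)) (d n)) :
    ∃ C : ℕ, ∀ k : ℕ, 16 ^ k ≤ C * (d (2 * 2 ^ k) + d (2 ^ k) + 1) := by
  classical
  obtain ⟨e, rb, r1, s1, r2, s2, r3, s3⟩ := ht_data hx b x1 y1 x2 y2 x3 y3
  have h1 := (wc_ns D.hb).2 D.e1
  have h2 := (wc_ns D.hb).2 D.e2
  have h3 := (wc_ns D.hb).2 D.e3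
  have hP3 : HtLe K x (WeierstrassCurve.Affine.Point.some x3 y3 h3 : (WC b).Point) e := ⟨r3, s3⟩
  have hdiv : ∀ (n : ℕ) (a c : L), φ^[n] (a / c) = φ^[n] a / φ^[n] c := by
    intro n a c
    induction n with
    | zero => rfl
    | succ m ih => rw [Function.iterate_succ_apply', Function.iterate_succ_apply',
        Function.iterate_succ_apply', ih, map_div₀]
  -- height of the third point of the `n`-th iterate
  have key : ∀ n : ℕ, HtLe K x
      (WeierstrassCurve.Affine.Point.some x3 y3 h3 +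
          n • WeierstrassCurve.Affine.Point.some x2 y2 h2 +
          (n.choose 2) • WeierstrassCurve.Affine.Point.some x1 y1 h1 : (WC b).Point)
      (4 * e + 3 * d n) := by
    intro n
    obtain ⟨s, X2, Y2, X3, Y3, k2, k3, hs, fb, f1, g1, f2, g2, f3, g3, E2, E3⟩ :=
      D.iter_pts h1 h2 h3 n
    rw [← E3]
    have hX : X3 = x1 * φ^[n] (x 3) := by
      rw [D.t3, hdiv, f3, f1]
      have := D.hx1
      field_simp
    have hXr : Rep K x X3 (e + d n) := by
      rw [hX]; exact rep_mul r1 (hd n)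
    have hYr : Rep K x Y3 (3 * (e + d n) + e) := by
      apply rep_of_sq hx
      rw [(wc_ns D.hb).1 k3]
      exact rep_add (rep_pow hx hXr 3) rb
    exact ⟨rep_mono hx hXr (by omega), rep_mono hx hYr (by omega)⟩
  refine ⟨60000 * (e + 1), fun k => ?_⟩
  obtain ⟨a', c', h', heq, hlow⟩ := eta_lower hx D.hb h1 hnc (2 * k)
  set n := 2 ^ k with hn
  set P1 := (WeierstrassCurve.Affine.Point.some x1 y1 h1 : (WC b).Point) with hP1
  set P2 := (WeierstrassCurve.Affine.Point.some x2 y2 h2 : (WC b).Point) with hP2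
  set P3 := (WeierstrassCurve.Affine.Point.some x3 y3 h3 : (WC b).Point) with hP3'
  have hid : (P3 + (2 * n) • P2 + ((2 * n).choose 2) • P1) +
      -(P3 + n • P2 + (n.choose 2) • P1) + -(P3 + n • P2 + (n.choose 2) • P1) + P3 =
      (2 ^ (2 * k)) • P1 := by
    have hc : (2 * n).choose 2 = 2 * n.choose 2 + 2 ^ (2 * k) := by
      have hn1 : 1 ≤ n := Nat.one_le_two_pow
      have h4 : 2 * (2 * n).choose 2 = 2 * n * (2 * n - 1) := by
        rw [Nat.choose_two_right]
        exact Nat.mul_div_cancel' (Nat.even_mul_pred_self (2 * n)).two_dvd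
      have h5 : 2 * n.choose 2 = n * (n - 1) := by
        rw [Nat.choose_two_right]
        exact Nat.mul_div_cancel' (Nat.even_mul_pred_self n).two_dvd
      have h6 : 2 ^ (2 * k) = n * n := by
        rw [hn, two_mul, pow_add]
      rw [h6]
      obtain ⟨m, hm⟩ : ∃ m, n = m + 1 := ⟨n - 1, by omega⟩
      rw [hm] at h4 h5 ⊢
      have h7 : 2 * (m + 1) - 1 = 2 * m + 1 := by omega
      have h8 : m + 1 - 1 = m := by omega
      rw [h7] at h4
      rw [h8] at h5
      nlinarith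
    rw [hc, add_smul, mul_smul, mul_smul, two_smul, two_smul]
    abel
  have hH : HtLe K x ((2 ^ (2 * k)) • P1)
      (13 * (13 * (13 * ((4 * e + 3 * d (2 * n)) + (4 * e + 3 * d n)) + (4 * e + 3 * d n)) + e)) := by
    rw [← hid]
    exact htLe_add hx (htLe_add hx (htLe_add hx (key (2 * n)) (htLe_neg (key n)))
      (htLe_neg (key n))) hP3
  rw [heq] at hH
  have hfin := hlow _ (rep_div hx (rep_pow hx hH.1 3) rb)
  have h16 : (16 : ℕ) ^ k = 4 ^ (2 * k) := by
    rw [pow_mul]; norm_num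
  rw [h16]
  refine hfin.trans ?_
  have h9 : 60000 * (e + 1) * (d (2 * n) + d n + 1) = 60000 * (e * d (2 * n)) +
    60000 * (e * d n) + 60000 * e + 60000 * d (2 * n) + 60000 * d n + 60000 := by ring
  rw [h9]
  omega

end Pool.Agent.Q58.DG
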