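import Mathlib
import Pool.Agent.Q58.DG.Growth

/-!
Construction of the automorphism of `K(t,u,v)` induced by the unipotent map on triples of points.
-/

set_option autoImplicit false
open MvPolynomial

namespace Pool.Agent.Q58.DG
open Pool.Agent.Helper993.CS

universe u

section formulas
variable {F : Type u} [Field F]

/-- abscissa of the first point, when the slope of `P1P2` is `1` -/
def fx1 (t u v : F) : F := t * ((u - 1) - t * (v - 1)) / (t * (u ^ 2 + u + 1) - (v ^ 2 + v + 1))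
/-- ordinate of the first point -/
def fy1 (t u v : F) : F := ((fx1 t u v) ^ 2 * (u ^ 2 + u + 1) - fx1 t u v * (u - 1)) / 2
/-- abscissa of the second point -/
def fx2 (t u v : F) : F := u * fx1 t u v
/-- ordinate of the second point -/
def fy2 (t u v : F) : F := fy1 t u v + (fx2 t u v - fx1 t u v)
/-- abscissa of the third point -/
def fx3 (t u v : F) : F := v * fx1 t u v
/-- ordinate of the third point -/
def fy3 (t u v : F) : F := fy1 t u v + t * (fx3 t u v - fx1 t u v)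
/-- the parameter of the curve -/
def fb (t u v : F) : F := (fy1 t u v) ^ 2 - (fx1 t u v) ^ 3
/-- abscissa of `P1 + P2` -/
def fx12 (t u v : F) : F := 1 - fx1 t u v - fx2 t u v
/-- ordinate of `P1 + P2` -/
def fy12 (t u v : F) : F := -(fy1 t u v + (fx12 t u v - fx1 t u v))
/-- slope of `P2P3` -/
def fmu (t u v : F) : F := (fy3 t u v - fy2 t u v) / (fx3 t u v - fx2 t u v)
/-- abscissa of `P2 + P3` -/
def fx23 (t u v : F) : F := (fmu t u v) ^ 2 - fx2 t u v - fx3 t u v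
/-- ordinate of `P2 + P3` -/
def fy23 (t u v : F) : F := -(fy2 t u v + fmu t u v * (fx23 t u v - fx2 t u v))
/-- new slope -/
def fl2 (t u v : F) : F := (fy12 t u v - fy1 t u v) / (fx12 t u v - fx1 t u v)
/-- new slope -/
def fl3 (t u v : F) : F := (fy23 t u v - fy1 t u v) / (fx23 t u v - fx1 t u v)
/-- image of `t` -/
def gt (t u v : F) : F := fl3 t u v / fl2 t u v
/-- image of `u` -/
def gu (t u v : F) : F := fx12 t u v / fx1 t u v
/-- image of `v` -/
def gv (t u v : F) : F := fx23 t u v / fx1 t u v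

/-- recovering the scaled first point -/
theorem rec1 [CharZero F] {X1 Y1 X2 Y2 X3 Y3 B l2 l3 : F} (e1 : Y1 ^ 2 = X1 ^ 3 + B)
    (e2 : Y2 ^ 2 = X2 ^ 3 + B) (e3 : Y3 ^ 2 = X3 ^ 3 + B) (hX1 : X1 ≠ 0) (h12 : X2 ≠ X1)
    (h13 : X3 ≠ X1) (hl2 : l2 * (X2 - X1) = Y2 - Y1) (hl3 : l3 * (X3 - X1) = Y3 - Y1)
    (hl0 : l2 ≠ 0)
    (hden : l3 / l2 * ((X2 / X1) ^ 2 + X2 / X1 + 1) - ((X3 / X1) ^ 2 + X3 / X1 + 1) ≠ 0) :
    fx1 (l3 / l2) (X2 / X1) (X3 / X1) = X1 / l2 ^ 2 ∧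
      fy1 (l3 / l2) (X2 / X1) (X3 / X1) = Y1 / l2 ^ 3 := by
  have a2 : l2 * (Y2 + Y1) = X2 ^ 2 + X2 * X1 + X1 ^ 2 := by
    apply mul_right_cancel₀ (sub_ne_zero.2 h12)
    linear_combination (Y2 + Y1) * hl2 + e2 - e1
  have a3 : l3 * (Y3 + Y1) = X3 ^ 2 + X3 * X1 + X1 ^ 2 := by
    apply mul_right_cancel₀ (sub_ne_zero.2 h13)
    linear_combination (Y3 + Y1) * hl3 + e3 - e1
  have hx : fx1 (l3 / l2) (X2 / X1) (X3 / X1) = X1 / l2 ^ 2 := by
    rw [fx1, div_eq_iff hden]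
    field_simp
    have b2 : l2 * (2 * Y1) = X2 ^ 2 + X2 * X1 + X1 ^ 2 - l2 ^ 2 * (X2 - X1) := by
      linear_combination a2 + l2 * hl2
    have b3 : l3 * (2 * Y1) = X3 ^ 2 + X3 * X1 + X1 ^ 2 - l3 ^ 2 * (X3 - X1) := by
      linear_combination a3 + l3 * hl3
    linear_combination l3 * b2 - l2 * b3
  refine ⟨hx, ?_⟩
  rw [fy1, hx]
  have b2 : l2 * (2 * Y1) = X2 ^ 2 + X2 * X1 + X1 ^ 2 - l2 ^ 2 * (X2 - X1) := by
    linear_combination a2 + l2 * hl2
  field_simp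
  linear_combination -b2

theorem f_e2 [CharZero F] (t u v : F) : (fy2 t u v) ^ 2 = (fx2 t u v) ^ 3 + fb t u v := by
  rw [fb, fy2, fx2]
  have h : 2 * fy1 t u v = (fx1 t u v) ^ 2 * (u ^ 2 + u + 1) - fx1 t u v * (u - 1) := by
    rw [fy1]; field_simp
  linear_combination (u * fx1 t u v - fx1 t u v) * h

theorem f_e3 [CharZero F] {t u v : F} (hden : t * (u ^ 2 + u + 1) - (v ^ 2 + v + 1) ≠ 0) :
    (fy3 t u v) ^ 2 = (fx3 t u v) ^ 3 + fb t u v := by
  rw [fb, fy3, fx3]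
  have h : 2 * fy1 t u v = (fx1 t u v) ^ 2 * (u ^ 2 + u + 1) - fx1 t u v * (u - 1) := by
    rw [fy1]; field_simp
  have h2 : fx1 t u v * (t * (u ^ 2 + u + 1) - (v ^ 2 + v + 1)) =
      t * ((u - 1) - t * (v - 1)) := by
    rw [fx1]; exact div_mul_cancel₀ _ hden
  linear_combination (t * (v * fx1 t u v - fx1 t u v)) * h +
    (fx1 t u v) ^ 2 * (v - 1) * h2

end formulas

section evaluation

variable {K : Type u} [Field K]

/-- the function field of affine 3-space -/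
abbrev LL (K : Type u) [Field K] : Type u := FractionRing (MvPolynomial (Fin 3) K)

/-- the affine coordinates -/
noncomputable def xx (K : Type u) [Field K] : Fin 4 → LL K :=
  Fin.cons 1 (fun i => algebraMap (MvPolynomial (Fin 3) K) (LL K) (X i))

theorem good_xx [Infinite K] : Good K (xx K) := by
  let ι : MvPolynomial (Fin 3) K →ₐ[K] LL K := IsScalarTower.toAlgHom K _ _
  have hι : Function.Injective ι := IsFractionRing.injective (MvPolynomial (Fin 3) K) (LL K)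
  have h0 : xx K 0 = 1 := by simp [xx]
  have hs : ∀ i : Fin 3, xx K i.succ = ι (X i) := fun i => by simp [xx, ι]
  refine ⟨inferInstance, h0, ?_, ?_⟩
  · have h1 : (fun i : Fin 3 => xx K i.succ) = fun i => ι (X i) := funext hs
    rw [h1]
    exact (MvPolynomial.algebraicIndependent_X (Fin 3) K).map' hι
  · rw [eq_top_iff]
    intro z _
    obtain ⟨p, q, hq, rfl⟩ := IsFractionRing.div_surjective (A := MvPolynomial (Fin 3) K) z
    have h6 : ∀ p : MvPolynomial (Fin 3) K,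
        ι p ∈ IntermediateField.adjoin K (Set.range (xx K)) := by
      intro p
      induction p using MvPolynomial.induction_on with
      | C a =>
        have : ι (C a) = algebraMap K (LL K) a := by
          rw [← MvPolynomial.algebraMap_eq]; exact ι.commutes a
        rw [this]
        exact IntermediateField.algebraMap_mem _ _
      | add p q hp hq => rw [map_add]; exact add_mem hp hq
      | mul_X p i hp =>
        rw [map_mul]
        exact mul_mem hp (IntermediateField.subset_adjoin K _ ⟨i.succ, hs i⟩)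
    exact div_mem (h6 p) (h6 q)

/-- the rational function `z` is defined at `a` and takes there the value `w` -/
def Ev (a : Fin 3 → K) (z : LL K) (w : K) : Prop :=
  ∃ P Q : MvPolynomial (Fin 3) K, eval a Q ≠ 0 ∧
    z * algebraMap (MvPolynomial (Fin 3) K) (LL K) Q =
      algebraMap (MvPolynomial (Fin 3) K) (LL K) P ∧ w * eval a Q = eval a P

theorem alg_inj : Function.Injective (algebraMap (MvPolynomial (Fin 3) K) (LL K)) :=
  IsFractionRing.injective (MvPolynomial (Fin 3) K) (LL K)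

theorem ev_unique {a : Fin 3 → K} {z : LL K} {w w' : K} (h : Ev a z w) (h' : Ev a z w') :
    w = w' := by
  obtain ⟨P, Q, hQ, h1, h2⟩ := h
  obtain ⟨P', Q', hQ', h1', h2'⟩ := h'
  have h3 : P * Q' = P' * Q := by
    apply alg_inj
    rw [map_mul, map_mul, ← h1, ← h1']; ring
  have h4 := congrArg (eval a) h3
  rw [map_mul, map_mul, ← h2, ← h2'] at h4
  apply mul_right_cancel₀ (mul_ne_zero hQ hQ')
  linear_combination h4

theorem ev_alg (a : Fin 3 → K) (c : K) : Ev a (algebraMap K (LL K) c) c := by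
  refine ⟨C c, 1, by simp, ?_, by simp⟩
  rw [map_one, mul_one]
  rfl

theorem ev_nat (a : Fin 3 → K) (n : ℕ) : Ev a (n : LL K) (n : K) := by
  have := ev_alg a (n : K)
  rwa [map_natCast] at this

theorem ev_one (a : Fin 3 → K) : Ev a (1 : LL K) (1 : K) := by
  have := ev_nat a 1
  rwa [Nat.cast_one, Nat.cast_one] at this

theorem ev_two (a : Fin 3 → K) : Ev a (2 : LL K) (2 : K) := by
  have := ev_nat a 2
  rwa [Nat.cast_ofNat, Nat.cast_ofNat] at this

theorem ev_X (a : Fin 3 → K) (i : Fin 3) :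
    Ev a (algebraMap (MvPolynomial (Fin 3) K) (LL K) (X i)) (a i) :=
  ⟨X i, 1, by simp, by simp, by simp⟩

theorem ev_add {a : Fin 3 → K} {z z' : LL K} {w w' : K} (h : Ev a z w) (h' : Ev a z' w') :
    Ev a (z + z') (w + w') := by
  obtain ⟨P, Q, hQ, h1, h2⟩ := h
  obtain ⟨P', Q', hQ', h1', h2'⟩ := h'
  refine ⟨P * Q' + Q * P', Q * Q', ?_, ?_, ?_⟩
  · rw [map_mul]; exact mul_ne_zero hQ hQ'
  · rw [map_mul, map_add, map_mul, map_mul, ← h1, ← h1']; ring
  · rw [map_mul, map_add, map_mul, map_mul, ← h2, ← h2']; ring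

theorem ev_mul {a : Fin 3 → K} {z z' : LL K} {w w' : K} (h : Ev a z w) (h' : Ev a z' w') :
    Ev a (z * z') (w * w') := by
  obtain ⟨P, Q, hQ, h1, h2⟩ := h
  obtain ⟨P', Q', hQ', h1', h2'⟩ := h'
  refine ⟨P * P', Q * Q', ?_, ?_, ?_⟩
  · rw [map_mul]; exact mul_ne_zero hQ hQ'
  · rw [map_mul, map_mul, ← h1, ← h1']; ring
  · rw [map_mul, map_mul, ← h2, ← h2']; ring

theorem ev_neg {a : Fin 3 → K} {z : LL K} {w : K} (h : Ev a z w) : Ev a (-z) (-w) := by
  obtain ⟨P, Q, hQ, h1, h2⟩ := h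
  exact ⟨-P, Q, hQ, by rw [map_neg, ← h1]; ring, by rw [map_neg, ← h2]; ring⟩

theorem ev_sub {a : Fin 3 → K} {z z' : LL K} {w w' : K} (h : Ev a z w) (h' : Ev a z' w') :
    Ev a (z - z') (w - w') := by
  rw [sub_eq_add_neg, sub_eq_add_neg]; exact ev_add h (ev_neg h')

theorem ev_pow {a : Fin 3 → K} {z : LL K} {w : K} (h : Ev a z w) (n : ℕ) :
    Ev a (z ^ n) (w ^ n) := by
  induction n with
  | zero => rw [pow_zero, pow_zero]; exact ev_one a
  | succ n ih => rw [pow_succ, pow_succ]; exact ev_mul ih h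

theorem ev_ne {a : Fin 3 → K} {z : LL K} {w : K} (h : Ev a z w) (hw : w ≠ 0) : z ≠ 0 := by
  rintro rfl
  apply hw
  have h0 : Ev a (0 : LL K) 0 := by
    have := ev_alg a (0 : K)
    rwa [map_zero] at this
  exact ev_unique h h0

theorem ev_div {a : Fin 3 → K} {z z' : LL K} {w w' : K} (h : Ev a z w) (h' : Ev a z' w')
    (hw' : w' ≠ 0) : Ev a (z / z') (w / w') := by
  have hz' := ev_ne h' hw'
  obtain ⟨P, Q, hQ, h1, h2⟩ := h
  obtain ⟨P', Q', hQ', h1', h2'⟩ := h'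
  refine ⟨P * Q', Q * P', ?_, ?_, ?_⟩
  · rw [map_mul, ← h2']; exact mul_ne_zero hQ (mul_ne_zero hw' hQ')
  · rw [map_mul, map_mul, ← h1, ← h1']; field_simp
  · rw [map_mul, map_mul, ← h2, ← h2']; field_simp

/-- values of all the coordinates at a point of `K^3` -/
theorem ev_all [CharZero K] {a : Fin 3 → K} {t u v : LL K} {ta ua va : K} (ht : Ev a t ta)
    (hu : Ev a u ua) (hv : Ev a v va)
    (hden : ta * (ua ^ 2 + ua + 1) - (va ^ 2 + va + 1) ≠ 0) :
    Ev a (fx1 t u v) (fx1 ta ua va) ∧ Ev a (fy1 t u v) (fy1 ta ua va) ∧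
    Ev a (fx2 t u v) (fx2 ta ua va) ∧ Ev a (fy2 t u v) (fy2 ta ua va) ∧
    Ev a (fx3 t u v) (fx3 ta ua va) ∧ Ev a (fy3 t u v) (fy3 ta ua va) ∧
    Ev a (fb t u v) (fb ta ua va) ∧
    Ev a (fx12 t u v) (fx12 ta ua va) ∧ Ev a (fy12 t u v) (fy12 ta ua va) := by
  have h1 : Ev a (fx1 t u v) (fx1 ta ua va) := by
    unfold fx1
    exact ev_div (ev_mul ht (ev_sub (ev_sub hu (ev_one a)) (ev_mul ht (ev_sub hv (ev_one a)))))
      (ev_sub (ev_mul ht (ev_add (ev_add (ev_pow hu 2) hu) (ev_one a)))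
        (ev_add (ev_add (ev_pow hv 2) hv) (ev_one a))) hden
  have h2 : Ev a (fy1 t u v) (fy1 ta ua va) := by
    unfold fy1
    exact ev_div (ev_sub (ev_mul (ev_pow h1 2) (ev_add (ev_add (ev_pow hu 2) hu) (ev_one a)))
      (ev_mul h1 (ev_sub hu (ev_one a)))) (ev_two a) two_ne_zero
  have h3 : Ev a (fx2 t u v) (fx2 ta ua va) := ev_mul hu h1
  have h4 : Ev a (fy2 t u v) (fy2 ta ua va) := ev_add h2 (ev_sub h3 h1)
  have h5 : Ev a (fx3 t u v) (fx3 ta ua va) := ev_mul hv h1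
  have h6 : Ev a (fy3 t u v) (fy3 ta ua va) := ev_add h2 (ev_mul ht (ev_sub h5 h1))
  have h7 : Ev a (fx12 t u v) (fx12 ta ua va) := ev_sub (ev_sub (ev_one a) h1) h3
  exact ⟨h1, h2, h3, h4, h5, h6, ev_sub (ev_pow h2 2) (ev_pow h1 3), h7,
    ev_neg (ev_add h2 (ev_sub h7 h1))⟩

theorem ev_all2 {a : Fin 3 → K} {t u v : LL K} {ta ua va : K}
    (h3 : Ev a (fx2 t u v) (fx2 ta ua va)) (h4 : Ev a (fy2 t u v) (fy2 ta ua va))
    (h5 : Ev a (fx3 t u v) (fx3 ta ua va)) (h6 : Ev a (fy3 t u v) (fy3 ta ua va))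
    (hden : fx3 ta ua va - fx2 ta ua va ≠ 0) :
    Ev a (fx23 t u v) (fx23 ta ua va) ∧ Ev a (fy23 t u v) (fy23 ta ua va) := by
  have h7 : Ev a (fmu t u v) (fmu ta ua va) := ev_div (ev_sub h6 h4) (ev_sub h5 h3) hden
  have h8 : Ev a (fx23 t u v) (fx23 ta ua va) := ev_sub (ev_sub (ev_pow h7 2) h3) h5
  exact ⟨h8, ev_neg (ev_add h4 (ev_mul h7 (ev_sub h8 h3)))⟩

end evaluation

section construction
variable (K : Type u) [Field K] [CharZero K]

/-- the three coordinates -/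
noncomputable def ct : LL K := algebraMap (MvPolynomial (Fin 3) K) (LL K) (X 0)
/-- the three coordinates -/
noncomputable def cu : LL K := algebraMap (MvPolynomial (Fin 3) K) (LL K) (X 1)
/-- the three coordinates -/
noncomputable def cv : LL K := algebraMap (MvPolynomial (Fin 3) K) (LL K) (X 2)

/-- non-degeneracy of the generic triple -/
theorem nondeg :
    ct K * ((cu K) ^ 2 + cu K + 1) - ((cv K) ^ 2 + cv K + 1) ≠ 0 ∧
    fb (ct K) (cu K) (cv K) ≠ 0 ∧ fx1 (ct K) (cu K) (cv K) ≠ 0 ∧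
    fx2 (ct K) (cu K) (cv K) ≠ fx1 (ct K) (cu K) (cv K) ∧
    fx3 (ct K) (cu K) (cv K) ≠ fx1 (ct K) (cu K) (cv K) ∧
    fx2 (ct K) (cu K) (cv K) ≠ fx3 (ct K) (cu K) (cv K) ∧
    fx12 (ct K) (cu K) (cv K) ≠ fx1 (ct K) (cu K) (cv K) ∧
    fx23 (ct K) (cu K) (cv K) ≠ fx1 (ct K) (cu K) (cv K) ∧
    fx23 (ct K) (cu K) (cv K) ≠ fx2 (ct K) (cu K) (cv K) ∧
    fy12 (ct K) (cu K) (cv K) ≠ fy1 (ct K) (cu K) (cv K) ∧
    fy23 (ct K) (cu K) (cv K) ≠ fy1 (ct K) (cu K) (cv K) ∧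
    fy12 (ct K) (cu K) (cv K) ≠ fy23 (ct K) (cu K) (cv K) := by
  have hcL : CharZero (LL K) := charZero_of_injective_algebraMap (algebraMap K (LL K)).injective
  let a : Fin 3 → K := ![1/2, 1/2, -1]
  have ht : Ev a (ct K) (1/2) := ev_X a 0
  have hu : Ev a (cu K) (1/2) := ev_X a 1
  have hv : Ev a (cv K) (-1) := ev_X a 2
  have hd : (1/2 : K) * ((1/2) ^ 2 + 1/2 + 1) - ((-1) ^ 2 + -1 + 1) = -1/8 := by norm_num
  have x1 : fx1 (1/2 : K) (1/2) (-1) = -2 := by rw [fx1, hd]; norm_num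
  have y1 : fy1 (1/2 : K) (1/2) (-1) = 3 := by rw [fy1, x1]; norm_num
  have x2 : fx2 (1/2 : K) (1/2) (-1) = -1 := by rw [fx2, x1]; norm_num
  have y2 : fy2 (1/2 : K) (1/2) (-1) = 4 := by rw [fy2, x1, x2, y1]; norm_num
  have x3 : fx3 (1/2 : K) (1/2) (-1) = 2 := by rw [fx3, x1]; norm_num
  have y3 : fy3 (1/2 : K) (1/2) (-1) = 5 := by rw [fy3, x1, x3, y1]; norm_num
  have vb : fb (1/2 : K) (1/2) (-1) = 17 := by rw [fb, x1, y1]; norm_num
  have x12 : fx12 (1/2 : K) (1/2) (-1) = 4 := by rw [fx12, x1, x2]; norm_num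
  have y12 : fy12 (1/2 : K) (1/2) (-1) = -9 := by rw [fy12, x1, x12, y1]; norm_num
  have mu : fmu (1/2 : K) (1/2) (-1) = 1/3 := by rw [fmu, x2, y2, x3, y3]; norm_num
  have x23 : fx23 (1/2 : K) (1/2) (-1) = -8/9 := by rw [fx23, x2, mu, x3]; norm_num
  have y23 : fy23 (1/2 : K) (1/2) (-1) = -109/27 := by rw [fy23, x2, y2, mu, x23]; norm_num
  obtain ⟨h1, h2, h3, h4, h5, h6, h7, h8, h9⟩ := ev_all ht hu hv (by rw [hd]; norm_num)
  obtain ⟨h10, h11⟩ := ev_all2 h3 h4 h5 h6 (by rw [x2, x3]; norm_num)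
  rw [x1] at h1
  rw [y1] at h2
  rw [x2] at h3
  rw [x3] at h5
  rw [vb] at h7
  rw [x12] at h8
  rw [y12] at h9
  rw [x23] at h10
  rw [y23] at h11
  refine ⟨?_, ev_ne h7 (by norm_num), ev_ne h1 (by norm_num), ?_, ?_, ?_, ?_, ?_, ?_, ?_, ?_, ?_⟩
  · refine ev_ne (ev_sub (ev_mul ht (ev_add (ev_add (ev_pow hu 2) hu) (ev_one a)))
        (ev_add (ev_add (ev_pow hv 2) hv) (ev_one a))) ?_
    rw [hd]; norm_num
  · exact sub_ne_zero.1 (ev_ne (ev_sub h3 h1) (by norm_num))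
  · exact sub_ne_zero.1 (ev_ne (ev_sub h5 h1) (by norm_num))
  · exact sub_ne_zero.1 (ev_ne (ev_sub h3 h5) (by norm_num))
  · exact sub_ne_zero.1 (ev_ne (ev_sub h8 h1) (by norm_num))
  · exact sub_ne_zero.1 (ev_ne (ev_sub h10 h1) (by norm_num))
  · exact sub_ne_zero.1 (ev_ne (ev_sub h10 h3) (by norm_num))
  · exact sub_ne_zero.1 (ev_ne (ev_sub h9 h2) (by norm_num))
  · exact sub_ne_zero.1 (ev_ne (ev_sub h11 h2) (by norm_num))
  · exact sub_ne_zero.1 (ev_ne (ev_sub h9 h11) (by norm_num))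

/-- the invariant `x1^3/b` is not constant -/
theorem nonconst : ¬ Rep K (xx K) ((fx1 (ct K) (cu K) (cv K)) ^ 3 / fb (ct K) (cu K) (cv K)) 0 := by
  rintro ⟨P, Q, hP, hQ, hQ0, hz⟩
  rw [← totalDegree_zero_iff_isHomogeneous, totalDegree_eq_zero_iff_eq_C] at hP hQ
  rw [hP, hQ, aeval_C, aeval_C] at hz
  rw [hQ, aeval_C] at hQ0
  set p := coeff 0 P
  set q := coeff 0 Q
  have hq : q ≠ 0 := by
    intro h
    exact hQ0 (by rw [h, map_zero])
  have hz' : (fx1 (ct K) (cu K) (cv K)) ^ 3 / fb (ct K) (cu K) (cv K) =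
      algebraMap K (LL K) (p / q) := by
    rw [map_div₀, eq_div_iff hQ0, hz]
  have A : (-8/17 : K) = p / q := by
    let a : Fin 3 → K := ![1/2, 1/2, -1]
    have ht : Ev a (ct K) (1/2) := ev_X a 0
    have hu : Ev a (cu K) (1/2) := ev_X a 1
    have hv : Ev a (cv K) (-1) := ev_X a 2
    have hd : (1/2 : K) * ((1/2) ^ 2 + 1/2 + 1) - ((-1) ^ 2 + -1 + 1) = -1/8 := by norm_num
    have x1 : fx1 (1/2 : K) (1/2) (-1) = -2 := by rw [fx1, hd]; norm_num
    have y1 : fy1 (1/2 : K) (1/2) (-1) = 3 := by rw [fy1, x1]; norm_num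
    have vb : fb (1/2 : K) (1/2) (-1) = 17 := by rw [fb, x1, y1]; norm_num
    obtain ⟨h1, h2, h3, h4, h5, h6, h7, h8, h9⟩ := ev_all ht hu hv (by rw [hd]; norm_num)
    rw [x1] at h1
    rw [vb] at h7
    have h := ev_div (ev_pow h1 3) h7 (by norm_num)
    rw [hz'] at h
    have := ev_unique h (ev_alg a _)
    rw [← this]; norm_num
  have B : (-1/17 : K) = p / q := by
    let a : Fin 3 → K := ![1/3, 2, -2]
    have ht : Ev a (ct K) (1/3) := ev_X a 0
    have hu : Ev a (cu K) 2 := ev_X a 1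
    have hv : Ev a (cv K) (-2) := ev_X a 2
    have hd : (1/3 : K) * (2 ^ 2 + 2 + 1) - ((-2) ^ 2 + -2 + 1) = -2/3 := by norm_num
    have x1 : fx1 (1/3 : K) 2 (-2) = -1 := by rw [fx1, hd]; norm_num
    have y1 : fy1 (1/3 : K) 2 (-2) = 4 := by rw [fy1, x1]; norm_num
    have vb : fb (1/3 : K) 2 (-2) = 17 := by rw [fb, x1, y1]; norm_num
    obtain ⟨h1, h2, h3, h4, h5, h6, h7, h8, h9⟩ := ev_all ht hu hv (by rw [hd]; norm_num)
    rw [x1] at h1
    rw [vb] at h7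
    have h := ev_div (ev_pow h1 3) h7 (by norm_num)
    rw [hz'] at h
    have := ev_unique h (ev_alg a _)
    rw [← this]; norm_num
  rw [← A] at B
  norm_num at B

end construction

end Pool.Agent.Q58.DG
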