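import Mathlib
import Pool.Agent.Q58.DG.Map

/-!
The automorphism of the function field and its reduced tuple of forms.
-/

set_option autoImplicit false
open MvPolynomial

namespace Pool.Agent.Q58.DG
open Pool.Agent.Helper993.CS

universe u

section naturality
variable {F F' : Type u} [Field F] [Field F'] (φ : F →+* F') (t u v : F)

theorem m1 : φ (fx1 t u v) = fx1 (φ t) (φ u) (φ v) := by simp [fx1]
theorem m2 : φ (fy1 t u v) = fy1 (φ t) (φ u) (φ v) := by simp [fy1, m1, map_ofNat]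
theorem m3 : φ (fx2 t u v) = fx2 (φ t) (φ u) (φ v) := by simp [fx2, m1]
theorem m4 : φ (fy2 t u v) = fy2 (φ t) (φ u) (φ v) := by simp [fy2, m1, m2, m3]
theorem m5 : φ (fx3 t u v) = fx3 (φ t) (φ u) (φ v) := by simp [fx3, m1]
theorem m6 : φ (fy3 t u v) = fy3 (φ t) (φ u) (φ v) := by simp [fy3, m1, m2, m5]
theorem m7 : φ (fb t u v) = fb (φ t) (φ u) (φ v) := by simp [fb, m1, m2]

end naturality

section construction
variable (K : Type u) [Field K] [CharZero K]

/-- the images of the coordinates -/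
noncomputable def im : Fin 3 → LL K :=
  ![gt (ct K) (cu K) (cv K), gu (ct K) (cu K) (cv K), gv (ct K) (cu K) (cv K)]

/-- the scaled coordinates of the image -/
theorem images :
    fl2 (ct K) (cu K) (cv K) ≠ 0 ∧
    fx1 (im K 0) (im K 1) (im K 2) =
      (fl2 (ct K) (cu K) (cv K))⁻¹ ^ 2 * fx1 (ct K) (cu K) (cv K) ∧
    fy1 (im K 0) (im K 1) (im K 2) =
      (fl2 (ct K) (cu K) (cv K))⁻¹ ^ 3 * fy1 (ct K) (cu K) (cv K) ∧
    fx2 (im K 0) (im K 1) (im K 2) =
      (fl2 (ct K) (cu K) (cv K))⁻¹ ^ 2 * fx12 (ct K) (cu K) (cv K) ∧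
    fy2 (im K 0) (im K 1) (im K 2) =
      (fl2 (ct K) (cu K) (cv K))⁻¹ ^ 3 * fy12 (ct K) (cu K) (cv K) ∧
    fx3 (im K 0) (im K 1) (im K 2) =
      (fl2 (ct K) (cu K) (cv K))⁻¹ ^ 2 * fx23 (ct K) (cu K) (cv K) ∧
    fy3 (im K 0) (im K 1) (im K 2) =
      (fl2 (ct K) (cu K) (cv K))⁻¹ ^ 3 * fy23 (ct K) (cu K) (cv K) ∧
    fb (im K 0) (im K 1) (im K 2) =
      (fl2 (ct K) (cu K) (cv K))⁻¹ ^ 6 * fb (ct K) (cu K) (cv K) := by
  have hcL : CharZero (LL K) := charZero_of_injective_algebraMap (algebraMap K (LL K)).injective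
  obtain ⟨n1, n2, n3, n4, n5, n6, n7, n8, n9, n10, n11, n12⟩ := nondeg K
  set t := ct K
  set u := cu K
  set v := cv K
  have E1 : (fy1 t u v) ^ 2 = (fx1 t u v) ^ 3 + fb t u v := by rw [fb]; ring
  have E2 := f_e2 t u v
  have E3 := f_e3 (t := t) (u := u) (v := v) n1
  -- the sums
  have S1 : fy2 t u v - fy1 t u v = fx2 t u v - fx1 t u v := by rw [fy2]; ring
  have C1 : (fy12 t u v) ^ 2 = (fx12 t u v) ^ 3 + fb t u v := by
    have h21 : fx2 t u v - fx1 t u v ≠ 0 := sub_ne_zero.2 n4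
    apply mul_right_cancel₀ h21
    rw [fy12, fx12]
    have e2' : fy2 t u v = fy1 t u v + (fx2 t u v - fx1 t u v) := rfl
    rw [e2'] at E2
    have h3 : (fx2 t u v - fx1 t u v) * (2 * fy1 t u v + (fx2 t u v - fx1 t u v)) =
        (fx2 t u v - fx1 t u v) * ((fx2 t u v) ^ 2 + fx2 t u v * fx1 t u v + (fx1 t u v) ^ 2) := by
      linear_combination E2 - E1
    have h4 := mul_left_cancel₀ h21 h3
    linear_combination (fx2 t u v - fx1 t u v) * E1 + (fx2 t u v - fx1 t u v) *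
      (1 - 2 * fx1 t u v - fx2 t u v) * h4
  have hmu : fmu t u v * (fx3 t u v - fx2 t u v) = fy3 t u v - fy2 t u v := by
    rw [fmu]; exact div_mul_cancel₀ _ (sub_ne_zero.2 n6.symm)
  have C2 : (fy23 t u v) ^ 2 = (fx23 t u v) ^ 3 + fb t u v := by
    have h21 : fx3 t u v - fx2 t u v ≠ 0 := sub_ne_zero.2 n6.symm
    apply mul_right_cancel₀ h21
    rw [fy23, fx23]
    have e3' : fy3 t u v = fy2 t u v + fmu t u v * (fx3 t u v - fx2 t u v) := by
      rw [hmu]; ring
    rw [e3'] at E3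
    have h3 : (fx3 t u v - fx2 t u v) *
        (fmu t u v * (2 * fy2 t u v + fmu t u v * (fx3 t u v - fx2 t u v))) =
        (fx3 t u v - fx2 t u v) * ((fx3 t u v) ^ 2 + fx3 t u v * fx2 t u v + (fx2 t u v) ^ 2) := by
      linear_combination E3 - E2
    have h4 := mul_left_cancel₀ h21 h3
    linear_combination (fx3 t u v - fx2 t u v) * E2 + (fx3 t u v - fx2 t u v) *
      ((fmu t u v) ^ 2 - 2 * fx2 t u v - fx3 t u v) * h4
  have hl2 : fl2 t u v * (fx12 t u v - fx1 t u v) = fy12 t u v - fy1 t u v := by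
    rw [fl2]; exact div_mul_cancel₀ _ (sub_ne_zero.2 n7)
  have hl3 : fl3 t u v * (fx23 t u v - fx1 t u v) = fy23 t u v - fy1 t u v := by
    rw [fl3]; exact div_mul_cancel₀ _ (sub_ne_zero.2 n8)
  have hl20 : fl2 t u v ≠ 0 := by
    intro h
    rw [h, zero_mul] at hl2
    exact n10 (sub_eq_zero.1 hl2.symm)
  have hl30 : fl3 t u v ≠ 0 := by
    intro h
    rw [h, zero_mul] at hl3
    exact n11 (sub_eq_zero.1 hl3.symm)
  have a2 : fl2 t u v * (fy12 t u v + fy1 t u v) =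
      (fx12 t u v) ^ 2 + fx12 t u v * fx1 t u v + (fx1 t u v) ^ 2 := by
    apply mul_right_cancel₀ (sub_ne_zero.2 n7)
    linear_combination (fy12 t u v + fy1 t u v) * hl2 + C1 - E1
  have a3 : fl3 t u v * (fy23 t u v + fy1 t u v) =
      (fx23 t u v) ^ 2 + fx23 t u v * fx1 t u v + (fx1 t u v) ^ 2 := by
    apply mul_right_cancel₀ (sub_ne_zero.2 n8)
    linear_combination (fy23 t u v + fy1 t u v) * hl3 + C2 - E1
  have hden : fl3 t u v / fl2 t u v * ((fx12 t u v / fx1 t u v) ^ 2 + fx12 t u v / fx1 t u v + 1) -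
      ((fx23 t u v / fx1 t u v) ^ 2 + fx23 t u v / fx1 t u v + 1) ≠ 0 := by
    have h5 : fl3 t u v / fl2 t u v *
        ((fx12 t u v / fx1 t u v) ^ 2 + fx12 t u v / fx1 t u v + 1) -
        ((fx23 t u v / fx1 t u v) ^ 2 + fx23 t u v / fx1 t u v + 1) =
        fl3 t u v * (fy12 t u v - fy23 t u v) / (fx1 t u v) ^ 2 := by
      have b2 : (fx12 t u v / fx1 t u v) ^ 2 + fx12 t u v / fx1 t u v + 1 =
          fl2 t u v * (fy12 t u v + fy1 t u v) / (fx1 t u v) ^ 2 := by
        rw [a2]; field_simp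
      have b3 : (fx23 t u v / fx1 t u v) ^ 2 + fx23 t u v / fx1 t u v + 1 =
          fl3 t u v * (fy23 t u v + fy1 t u v) / (fx1 t u v) ^ 2 := by
        rw [a3]; field_simp
      rw [b2, b3]
      field_simp
      ring
    rw [h5]
    exact div_ne_zero (mul_ne_zero hl30 (sub_ne_zero.2 n12)) (pow_ne_zero _ n3)
  obtain ⟨r1, r2⟩ := rec1 E1 C1 C2 n3 n7 n8 hl2 hl3 hl20 hden
  have i0 : im K 0 = fl3 t u v / fl2 t u v := rfl
  have i1 : im K 1 = fx12 t u v / fx1 t u v := rfl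
  have i2 : im K 2 = fx23 t u v / fx1 t u v := rfl
  rw [i0, i1, i2]
  have R2 : fx2 (fl3 t u v / fl2 t u v) (fx12 t u v / fx1 t u v) (fx23 t u v / fx1 t u v) =
      fx12 t u v / (fl2 t u v) ^ 2 := by
    rw [fx2, r1]; field_simp
  have R3 : fx3 (fl3 t u v / fl2 t u v) (fx12 t u v / fx1 t u v) (fx23 t u v / fx1 t u v) =
      fx23 t u v / (fl2 t u v) ^ 2 := by
    rw [fx3, r1]; field_simp
  have R2y : fy2 (fl3 t u v / fl2 t u v) (fx12 t u v / fx1 t u v) (fx23 t u v / fx1 t u v) =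
      fy12 t u v / (fl2 t u v) ^ 3 := by
    rw [fy2, r1, r2, R2]; field_simp; linear_combination hl2
  have R3y : fy3 (fl3 t u v / fl2 t u v) (fx12 t u v / fx1 t u v) (fx23 t u v / fx1 t u v) =
      fy23 t u v / (fl2 t u v) ^ 3 := by
    rw [fy3, r1, r2, R3]; field_simp; linear_combination hl3
  refine ⟨hl20, ?_, ?_, ?_, ?_, ?_, ?_, ?_⟩
  · rw [r1]; field_simp
  · rw [r2]; field_simp
  · rw [R2]; field_simp
  · rw [R2y]; field_simp
  · rw [R3]; field_simp
  · rw [R3y]; field_simp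
  · rw [fb, r1, r2, fb]; field_simp

/-- the images generate the function field -/
theorem im_gen : IntermediateField.adjoin K (Set.range (im K)) = ⊤ := by
  have hcL : CharZero (LL K) := charZero_of_injective_algebraMap (algebraMap K (LL K)).injective
  obtain ⟨n1, n2, n3, n4, n5, n6, n7, n8, n9, n10, n11, n12⟩ := nondeg K
  obtain ⟨hl, I1, I2, I3, I4, I5, I6, I7⟩ := images K
  set E := IntermediateField.adjoin K (Set.range (im K)) with hE
  have g : ∀ i, im K i ∈ E := fun i => IntermediateField.subset_adjoin K _ ⟨i, rfl⟩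
  have one : (1 : LL K) ∈ E := one_mem E
  have two : (2 : LL K) ∈ E := by
    have h := add_mem one one
    have h2 : (1 : LL K) + 1 = 2 := by norm_num
    rwa [h2] at h
  have hw : (im K 1) ^ 2 + im K 1 + 1 ∈ E := add_mem (add_mem (pow_mem (g 1) 2) (g 1)) one
  have A1 : fx1 (im K 0) (im K 1) (im K 2) ∈ E := by
    unfold fx1
    exact div_mem (mul_mem (g 0) (sub_mem (sub_mem (g 1) one)
      (mul_mem (g 0) (sub_mem (g 2) one)))) (sub_mem (mul_mem (g 0) hw)
        (add_mem (add_mem (pow_mem (g 2) 2) (g 2)) one))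
  have B1 : fy1 (im K 0) (im K 1) (im K 2) ∈ E := by
    unfold fy1
    exact div_mem (sub_mem (mul_mem (pow_mem A1 2) hw) (mul_mem A1 (sub_mem (g 1) one))) two
  have A2 : fx2 (im K 0) (im K 1) (im K 2) ∈ E := mul_mem (g 1) A1
  have B2 : fy2 (im K 0) (im K 1) (im K 2) ∈ E := add_mem B1 (sub_mem A2 A1)
  have A3 : fx3 (im K 0) (im K 1) (im K 2) ∈ E := mul_mem (g 2) A1
  have B3 : fy3 (im K 0) (im K 1) (im K 2) ∈ E := add_mem B1 (mul_mem (g 0) (sub_mem A3 A1))
  rw [I1] at A1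
  rw [I2] at B1
  rw [I3] at A2
  rw [I4] at B2
  rw [I5] at A3
  rw [I6] at B3
  set t := ct K
  set u := cu K
  set v := cv K
  set s := (fl2 t u v)⁻¹ with hs
  have hs0 : s ≠ 0 := inv_ne_zero hl
  have S : s ∈ E := by
    have h1 := div_mem (add_mem B2 B1) (sub_mem A2 A1)
    have h2 : (s ^ 3 * fy12 t u v + s ^ 3 * fy1 t u v) / (s ^ 2 * fx12 t u v - s ^ 2 * fx1 t u v) =
        -s := by
      have h3 : fx12 t u v - fx1 t u v ≠ 0 := sub_ne_zero.2 n7
      have h4 : s ^ 2 * fx12 t u v - s ^ 2 * fx1 t u v = s ^ 2 * (fx12 t u v - fx1 t u v) := by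
        ring
      rw [h4, div_eq_iff (mul_ne_zero (pow_ne_zero _ hs0) h3)]
      have h5 : fy12 t u v = -(fy1 t u v + (fx12 t u v - fx1 t u v)) := rfl
      rw [h5]; ring
    rw [h2] at h1
    have := neg_mem h1
    rwa [neg_neg] at this
  have hs2 : s ^ 2 ∈ E := pow_mem S 2
  have hs3 : s ^ 3 ∈ E := pow_mem S 3
  have un2 : ∀ z : LL K, s ^ 2 * z ∈ E → z ∈ E := by
    intro z hz
    have := div_mem hz hs2
    rwa [mul_div_cancel_left₀ _ (pow_ne_zero _ hs0)] at this
  have un3 : ∀ z : LL K, s ^ 3 * z ∈ E → z ∈ E := by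
    intro z hz
    have := div_mem hz hs3
    rwa [mul_div_cancel_left₀ _ (pow_ne_zero _ hs0)] at this
  have a1 := un2 _ A1
  have b1 := un3 _ B1
  have a12 := un2 _ A2
  have a23 := un2 _ A3
  have b23 := un3 _ B3
  have a2 : fx2 t u v ∈ E := by
    have h := sub_mem (sub_mem one a1) a12
    have h2 : 1 - fx1 t u v - fx12 t u v = fx2 t u v := by rw [fx12]; ring
    rwa [h2] at h
  have b2 : fy2 t u v ∈ E := add_mem b1 (sub_mem a2 a1)
  have mu : fmu t u v ∈ E := by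
    have h := neg_mem (div_mem (add_mem b23 b2) (sub_mem a23 a2))
    have h2 : -((fy23 t u v + fy2 t u v) / (fx23 t u v - fx2 t u v)) = fmu t u v := by
      have h3 : fx23 t u v - fx2 t u v ≠ 0 := sub_ne_zero.2 n9
      have h4 : fy23 t u v + fy2 t u v = -(fmu t u v * (fx23 t u v - fx2 t u v)) := by
        rw [fy23]; ring
      rw [h4, neg_div, neg_neg, mul_div_cancel_right₀ _ h3]
    rwa [h2] at h
  have a3 : fx3 t u v ∈ E := by
    have h := sub_mem (sub_mem (pow_mem mu 2) a2) a23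
    have h2 : (fmu t u v) ^ 2 - fx2 t u v - fx23 t u v = fx3 t u v := by rw [fx23]; ring
    rwa [h2] at h
  have b3 : fy3 t u v ∈ E := by
    have h := add_mem b2 (mul_mem mu (sub_mem a3 a2))
    have h2 : fy2 t u v + fmu t u v * (fx3 t u v - fx2 t u v) = fy3 t u v := by
      rw [fmu, div_mul_cancel₀ _ (sub_ne_zero.2 n6.symm)]; ring
    rwa [h2] at h
  have hu : u ∈ E := by
    have h := div_mem a2 a1
    have h2 : fx2 t u v / fx1 t u v = u := by rw [fx2, mul_div_cancel_right₀ _ n3]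
    rwa [h2] at h
  have hv : v ∈ E := by
    have h := div_mem a3 a1
    have h2 : fx3 t u v / fx1 t u v = v := by rw [fx3, mul_div_cancel_right₀ _ n3]
    rwa [h2] at h
  have ht : t ∈ E := by
    have h := div_mem (sub_mem b3 b1) (sub_mem a3 a1)
    have h2 : (fy3 t u v - fy1 t u v) / (fx3 t u v - fx1 t u v) = t := by
      rw [div_eq_iff (sub_ne_zero.2 n5), fy3]; ring
    rwa [h2] at h
  rw [eq_top_iff, ← (good_xx (K := K)).gen, IntermediateField.adjoin_le_iff]
  rintro _ ⟨i, rfl⟩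
  fin_cases i
  · exact one
  · exact ht
  · exact hu
  · exact hv

end construction

end Pool.Agent.Q58.DG
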