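import Mathlib
import Pool.Agent.Q58.DG.Phi

/-!
From the automorphism of the function field to a reduced tuple of forms, and the relation between
degrees of iterates and heights.
-/

set_option autoImplicit false
open MvPolynomial

namespace Pool.Agent.Q58.DG
open Pool.Agent.Helper993.CS

universe u

section phi
variable (K : Type u) [Field K] [CharZero K]

theorem im_indep : AlgebraicIndependent K (im K) := by
  have h1 : Algebra.IsAlgebraic (IntermediateField.adjoin K (Set.range (im K))) (LL K) := by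
    refine ⟨fun z => ?_⟩
    have hz : z ∈ IntermediateField.adjoin K (Set.range (im K)) := by
      rw [im_gen]; trivial
    exact isAlgebraic_algebraMap (⟨z, hz⟩ : IntermediateField.adjoin K (Set.range (im K)))
  have h2 : Algebra.IsAlgebraic (Algebra.adjoin K (Set.range (im K))) (LL K) :=
    IntermediateField.isAlgebraic_adjoin_iff_top.1 h1
  have h3 := (good_xx (K := K)).ind.lift_cardinalMk_le_trdeg
  exact (Algebra.IsAlgebraic.isTranscendenceBasis_of_lift_le_trdeg_of_finite K (im K) h3).1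

/-- the automorphism of the function field -/
theorem exists_phi : ∃ φ : LL K →ₐ[K] LL K, φ (ct K) = im K 0 ∧ φ (cu K) = im K 1 ∧
    φ (cv K) = im K 2 := by
  have hinj : Function.Injective (aeval (im K) : MvPolynomial (Fin 3) K →ₐ[K] LL K) := im_indep K
  refine ⟨IsFractionRing.liftAlgHom hinj, ?_, ?_, ?_⟩
  · show IsFractionRing.lift hinj (algebraMap _ (LL K) (X 0)) = _
    rw [IsFractionRing.lift_algebraMap]; exact aeval_X _ _
  · show IsFractionRing.lift hinj (algebraMap _ (LL K) (X 1)) = _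
    rw [IsFractionRing.lift_algebraMap]; exact aeval_X _ _
  · show IsFractionRing.lift hinj (algebraMap _ (LL K) (X 2)) = _
    rw [IsFractionRing.lift_algebraMap]; exact aeval_X _ _

theorem exists_dat : ∃ φ : LL K →ₐ[K] LL K,
    Dat (xx K) φ (fb (ct K) (cu K) (cv K)) (fx1 (ct K) (cu K) (cv K)) (fy1 (ct K) (cu K) (cv K))
      (fx2 (ct K) (cu K) (cv K)) (fy2 (ct K) (cu K) (cv K)) (fx3 (ct K) (cu K) (cv K))
      (fy3 (ct K) (cu K) (cv K)) (fx12 (ct K) (cu K) (cv K)) (fy12 (ct K) (cu K) (cv K))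
      (fx23 (ct K) (cu K) (cv K)) (fy23 (ct K) (cu K) (cv K)) (fl2 (ct K) (cu K) (cv K))⁻¹ := by
  have hcL : CharZero (LL K) := charZero_of_injective_algebraMap (algebraMap K (LL K)).injective
  obtain ⟨φ, p0, p1, p2⟩ := exists_phi K
  obtain ⟨n1, n2, n3, n4, n5, n6, n7, n8, n9, n10, n11, n12⟩ := nondeg K
  obtain ⟨hl, I1, I2, I3, I4, I5, I6, I7⟩ := images K
  have x0 : xx K 1 = ct K := rfl
  have x1 : xx K 2 = cu K := rfl
  have x2 : xx K 3 = cv K := rfl
  refine ⟨φ, n2, inv_ne_zero hl, n3, n5, ?_, f_e2 _ _ _, f_e3 n1, ?_, ?_, ?_, ?_, ?_, ?_, ?_, ?_,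
    ?_, ?_, ?_, ?_, ?_⟩
  · rw [fb]; ring
  · rw [fy2]; ring
  · refine ⟨n4.symm, ?_, ?_⟩
    · rw [fx12, fy2]; ring
    · rw [fy12, fx12, fy2]; ring
  · have hmu : fmu (ct K) (cu K) (cv K) * (fx3 (ct K) (cu K) (cv K) - fx2 (ct K) (cu K) (cv K)) =
        fy3 (ct K) (cu K) (cv K) - fy2 (ct K) (cu K) (cv K) := by
      rw [fmu]; exact div_mul_cancel₀ _ (sub_ne_zero.2 n6.symm)
    refine ⟨n6, ?_, ?_⟩
    · have h : fx23 (ct K) (cu K) (cv K) + fx2 (ct K) (cu K) (cv K) + fx3 (ct K) (cu K) (cv K) =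
          (fmu (ct K) (cu K) (cv K)) ^ 2 := by rw [fx23]; ring
      rw [h]
      have h2 : fy2 (ct K) (cu K) (cv K) - fy3 (ct K) (cu K) (cv K) =
        -(fmu (ct K) (cu K) (cv K) * (fx3 (ct K) (cu K) (cv K) - fx2 (ct K) (cu K) (cv K))) := by
        rw [hmu]; ring
      rw [h2]; ring
    · have h2 : fy2 (ct K) (cu K) (cv K) - fy3 (ct K) (cu K) (cv K) =
        -(fmu (ct K) (cu K) (cv K) * (fx3 (ct K) (cu K) (cv K) - fx2 (ct K) (cu K) (cv K))) := by
        rw [hmu]; ring
      rw [h2, fy23]; ring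
  · have h := m7 φ.toRingHom (ct K) (cu K) (cv K)
    have h' : φ (fb (ct K) (cu K) (cv K)) = fb (φ (ct K)) (φ (cu K)) (φ (cv K)) := h
    rw [h', p0, p1, p2, I7]
  · have h' : φ (fx1 (ct K) (cu K) (cv K)) = fx1 (φ (ct K)) (φ (cu K)) (φ (cv K)) :=
      m1 φ.toRingHom (ct K) (cu K) (cv K)
    rw [h', p0, p1, p2, I1]
  · have h' : φ (fy1 (ct K) (cu K) (cv K)) = fy1 (φ (ct K)) (φ (cu K)) (φ (cv K)) :=
      m2 φ.toRingHom (ct K) (cu K) (cv K)
    rw [h', p0, p1, p2, I2]
  · have h' : φ (fx2 (ct K) (cu K) (cv K)) = fx2 (φ (ct K)) (φ (cu K)) (φ (cv K)) :=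
      m3 φ.toRingHom (ct K) (cu K) (cv K)
    rw [h', p0, p1, p2, I3]
  · have h' : φ (fy2 (ct K) (cu K) (cv K)) = fy2 (φ (ct K)) (φ (cu K)) (φ (cv K)) :=
      m4 φ.toRingHom (ct K) (cu K) (cv K)
    rw [h', p0, p1, p2, I4]
  · have h' : φ (fx3 (ct K) (cu K) (cv K)) = fx3 (φ (ct K)) (φ (cu K)) (φ (cv K)) :=
      m5 φ.toRingHom (ct K) (cu K) (cv K)
    rw [h', p0, p1, p2, I5]
  · have h' : φ (fy3 (ct K) (cu K) (cv K)) = fy3 (φ (ct K)) (φ (cu K)) (φ (cv K)) :=
      m6 φ.toRingHom (ct K) (cu K) (cv K)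
    rw [h', p0, p1, p2, I6]
  · rw [x0, eq_comm, div_eq_iff (sub_ne_zero.2 n5), fy3]; ring
  · rw [x1, fx2, mul_div_cancel_right₀ _ n3]
  · rw [x2, fx3, mul_div_cancel_right₀ _ n3]

end phi

section forms
variable {K L : Type u} [Field K] [Field L] [Algebra K L] {x : Fin 4 → L}

/-- forms of degree `a` representing three given elements with a common denominator -/
theorem common_forms {z : Fin 4 → L} (hz0 : z 0 = 1) {a : Fin 4 → ℕ}
    (h : ∀ i, Rep K x (z i) (a i)) :
    ∃ G : Fin 4 → MvPolynomial (Fin 4) K, (∀ i, (G i).IsHomogeneous (a 1 + a 2 + a 3)) ∧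
      aeval x (G 0) ≠ 0 ∧ ∀ i, z i * aeval x (G 0) = aeval x (G i) := by
  obtain ⟨P1, Q1, hP1, hQ1, hQ10, h1⟩ := h 1
  obtain ⟨P2, Q2, hP2, hQ2, hQ20, h2⟩ := h 2
  obtain ⟨P3, Q3, hP3, hQ3, hQ30, h3⟩ := h 3
  refine ⟨![Q1 * Q2 * Q3, P1 * Q2 * Q3, Q1 * P2 * Q3, Q1 * Q2 * P3], ?_, ?_, ?_⟩
  · intro i
    fin_cases i
    · exact (hQ1.mul hQ2).mul hQ3
    · exact (hP1.mul hQ2).mul hQ3
    · exact (hQ1.mul hP2).mul hQ3
    · exact (hQ1.mul hQ2).mul hP3
  · show aeval x (Q1 * Q2 * Q3) ≠ 0
    rw [map_mul, map_mul]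
    exact mul_ne_zero (mul_ne_zero hQ10 hQ20) hQ30
  · intro i
    fin_cases i
    · show z 0 * aeval x (Q1 * Q2 * Q3) = aeval x (Q1 * Q2 * Q3)
      rw [hz0, one_mul]
    · show z 1 * aeval x (Q1 * Q2 * Q3) = aeval x (P1 * Q2 * Q3)
      rw [map_mul, map_mul, map_mul, map_mul, ← h1]; ring
    · show z 2 * aeval x (Q1 * Q2 * Q3) = aeval x (Q1 * P2 * Q3)
      rw [map_mul, map_mul, map_mul, map_mul, ← h2]; ring
    · show z 3 * aeval x (Q1 * Q2 * Q3) = aeval x (Q1 * Q2 * P3)
      rw [map_mul, map_mul, map_mul, map_mul, ← h3]; ring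

theorem iter_rel {d : ℕ} {F : Fin 4 → MvPolynomial (Fin 4) K} (hF : ∀ i, (F i).IsHomogeneous d)
    (φ : L →ₐ[K] L) (hx0 : x 0 = 1) (h0 : aeval x (F 0) ≠ 0)
    (h : ∀ i, φ (x i) * aeval x (F 0) = aeval x (F i)) (n : ℕ) :
    aeval x (iter F n 0) ≠ 0 ∧
      ∀ i, (φ)^[n] (x i) * aeval x (iter F n 0) = aeval x (iter F n i) := by
  have key : ∀ (n : ℕ) (P : MvPolynomial (Fin 4) K),
      (⇑φ)^[n] (aeval x P) = aeval (fun i => (⇑φ)^[n] (x i)) P := by
    intro n
    induction n with
    | zero => intro P; rfl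
    | succ n ih =>
      intro P
      simp only [Function.iterate_succ', Function.comp_apply]
      rw [ih, ← AlgHom.comp_apply, comp_aeval]
  have hmul : ∀ (n : ℕ) (a b : L), (⇑φ)^[n] (a * b) = (⇑φ)^[n] a * (⇑φ)^[n] b := by
    intro n a b
    exact iterate_map_mul φ n a b
  have hinj : ∀ n : ℕ, Function.Injective ((⇑φ)^[n]) := fun n => φ.toRingHom.injective.iterate n
  have hzero : ∀ n : ℕ, (⇑φ)^[n] 0 = 0 := fun n => iterate_map_zero φ n
  induction n with
  | zero =>
    refine ⟨?_, ?_⟩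
    · show aeval x (X 0) ≠ 0
      rw [aeval_X, hx0]
      exact one_ne_zero
    · intro i
      show x i * aeval x (X 0) = aeval x (X i)
      rw [aeval_X, aeval_X, hx0, mul_one]
  | succ n ih =>
    obtain ⟨ih0, ih1⟩ := ih
    have step : ∀ i, aeval x (iter F (n+1) i) =
        (aeval x (iter F n 0))^d * (⇑φ)^[n] (aeval x (F i)) := by
      intro i
      show aeval x (bind₁ (iter F n) (F i)) = _
      rw [aeval_bind₁, key, ← ff_scale (hF i)]
      congr 2
      funext j
      rw [← ih1 j, mul_comm]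
    refine ⟨?_, ?_⟩
    · rw [step]
      apply mul_ne_zero (pow_ne_zero _ ih0)
      intro hh
      exact h0 (hinj n (by rw [hh, hzero]))
    · intro i
      rw [step, step, Function.iterate_succ, Function.comp_apply]
      rw [← h i, hmul]
      ring

/-- the tuple of forms of the map -/
theorem exists_forms (hx : Good K x) (φ : L →ₐ[K] L) :
    ∃ (d : ℕ) (F : Fin 4 → MvPolynomial (Fin 4) K), (∀ i, (F i).IsHomogeneous d) ∧
      (∀ q, (∀ i, q ∣ F i) → IsUnit q) ∧ aeval x (F 0) ≠ 0 ∧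
      ∀ i, φ (x i) * aeval x (F 0) = aeval x (F i) := by
  choose a ha using fun i => rep_exists hx (φ (x i))
  obtain ⟨G, hG, hG0, hGe⟩ := common_forms (by rw [hx.one, map_one]) ha
  have hG0' : G 0 ≠ 0 := by
    intro h
    exact hG0 (by rw [h, map_zero])
  obtain ⟨d, H, F, hH, hGF, hF, hu⟩ := redDeg_exists _ G hG hG0'
  have hH0 : aeval x H ≠ 0 := by
    intro h
    exact hG0 (by rw [hGF, map_mul, h, zero_mul])
  refine ⟨d, F, hF, hu, ?_, fun i => ?_⟩
  · intro h
    exact hG0 (by rw [hGF, map_mul, h, mul_zero])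
  · apply mul_left_cancel₀ hH0
    have := hGe i
    rw [hGF 0, hGF i, map_mul, map_mul] at this
    rw [← this]; ring

/-- the tuple is algebraically independent -/
theorem forms_indep (hx : Good K x) {d : ℕ} {F : Fin 4 → MvPolynomial (Fin 4) K}
    (hF : ∀ i, (F i).IsHomogeneous d) (φ : L →ₐ[K] L) (h0 : aeval x (F 0) ≠ 0)
    (h : ∀ i, φ (x i) * aeval x (F 0) = aeval x (F i)) (hnc : x 1 ∉ Set.range (algebraMap K L)) :
    AlgebraicIndependent K F := by
  have hinf := hx.inf
  -- `d` is positive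
  have hd : d ≠ 0 := by
    rintro rfl
    have h1 : ∀ i, ∃ c : K, aeval x (F i) = algebraMap K L c := by
      intro i
      have := hF i
      rw [← totalDegree_zero_iff_isHomogeneous, totalDegree_eq_zero_iff_eq_C] at this
      rw [this, aeval_C]
      exact ⟨_, rfl⟩
    obtain ⟨c0, hc0⟩ := h1 0
    obtain ⟨c1, hc1⟩ := h1 1
    have h2 := h 1
    rw [hc0] at h0
    rw [hc0, hc1] at h2
    apply hnc
    refine ⟨c1 / c0, ?_⟩
    apply φ.toRingHom.injective
    show φ (algebraMap K L (c1 / c0)) = φ (x 1)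
    rw [AlgHom.commutes, map_div₀, ← h2, mul_div_cancel_right₀ _ h0]
  rw [algebraicIndependent_iff]
  intro P hP
  -- every homogeneous component vanishes
  have hcomp : ∀ e, homogeneousComponent e P = 0 := by
    intro e
    -- values at scaled points
    have hsum : ∀ s : K, ∑ k ∈ Finset.range (P.totalDegree + 1),
        (algebraMap K L s) ^ (d * k) * aeval x (aeval F (homogeneousComponent k P)) = 0 := by
      intro s
      have h1 : ∀ k, (algebraMap K L s) ^ (d * k) * aeval x (aeval F (homogeneousComponent k P)) =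
          aeval (fun i => algebraMap K L s * x i) (aeval F (homogeneousComponent k P)) := by
        intro k
        have := (homogeneousComponent_isHomogeneous k P).aeval F hF
        rw [ff_scale this]
      simp_rw [h1]
      rw [← map_sum, ← map_sum, sum_homogeneousComponent, hP, map_zero]
    -- a polynomial with infinitely many roots
    let p : Polynomial L := ∑ k ∈ Finset.range (P.totalDegree + 1),
      Polynomial.monomial (d * k) (aeval x (aeval F (homogeneousComponent k P)))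
    have hp : p = 0 := by
      apply Polynomial.eq_zero_of_infinite_isRoot
      refine Set.Infinite.mono ?_ (Set.infinite_range_of_injective (algebraMap K L).injective)
      rintro _ ⟨s, rfl⟩
      show Polynomial.IsRoot p (algebraMap K L s)
      rw [Polynomial.IsRoot, Polynomial.eval_finsetSum]
      simp_rw [Polynomial.eval_monomial]
      rw [← hsum s]
      apply Finset.sum_congr rfl
      intro k _
      ring
    rcases Nat.lt_or_ge e (P.totalDegree + 1) with he | he
    · have hc := congrArg (fun q => Polynomial.coeff q (d * e)) hp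
      simp only [p, Polynomial.finsetSum_coeff, Polynomial.coeff_monomial,
        Polynomial.coeff_zero] at hc
      rw [Finset.sum_eq_single e] at hc
      · rw [if_pos rfl] at hc
        have hhom := (homogeneousComponent_isHomogeneous e P)
        have h3 := inj_of hx (hhom.aeval F hF) hc
        -- now `aeval F (P_e) = 0`
        have h4 : aeval x (aeval F (homogeneousComponent e P)) =
            (aeval x (F 0)) ^ e * φ (aeval x (homogeneousComponent e P)) := by
          rw [← AlgHom.comp_apply, comp_aeval]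
          have h5 : (fun i => aeval x (F i)) = fun i => aeval x (F 0) * φ (x i) := by
            funext i; rw [← h i]; ring
          rw [h5, ff_scale hhom]
          congr 1
          rw [← AlgHom.comp_apply, comp_aeval]
        rw [hc] at h4
        have h6 : φ (aeval x (homogeneousComponent e P)) = 0 := by
          rcases mul_eq_zero.1 h4.symm with h7 | h7
          · exact absurd h7 (pow_ne_zero _ h0)
          · exact h7
        have h8 : aeval x (homogeneousComponent e P) = 0 :=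
          φ.toRingHom.injective (by rw [map_zero]; exact h6)
        exact inj_of hx hhom h8
      · intro k _ hk
        rw [if_neg]
        intro h9
        exact hk (Nat.eq_of_mul_eq_mul_left (Nat.pos_of_ne_zero hd) h9)
      · intro h9
        exact absurd (Finset.mem_range.2 he) h9
    · exact homogeneousComponent_eq_zero _ _ (by omega)
  rw [← sum_homogeneousComponent P]
  exact Finset.sum_eq_zero fun e _ => hcomp e

/-- reduced degree bounds heights -/
theorem redDeg_rep {P : Fin 4 → MvPolynomial (Fin 4) K} {D : ℕ} (h : RedDeg P D)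
    (h0 : aeval x (P 0) ≠ 0) {z : L} {i : Fin 4} (hz : z * aeval x (P 0) = aeval x (P i)) :
    Rep K x z D := by
  obtain ⟨H, G, hH, hPG, hG, hu⟩ := h
  have hH0 : aeval x H ≠ 0 := by
    intro h
    exact h0 (by rw [hPG, map_mul, h, zero_mul])
  refine ⟨G i, G 0, hG i, hG 0, ?_, ?_⟩
  · intro h
    exact h0 (by rw [hPG, map_mul, h, mul_zero])
  · apply mul_left_cancel₀ hH0
    rw [hPG 0, hPG i, map_mul, map_mul] at hz
    rw [← hz]; ring

/-- heights bound the reduced degree -/
theorem redDeg_le (hx : Good K x) {P : Fin 4 → MvPolynomial (Fin 4) K} {D : ℕ} (h : RedDeg P D)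
    (h0 : aeval x (P 0) ≠ 0) {z : Fin 4 → L} (hz0 : z 0 = 1)
    (hz : ∀ i, z i * aeval x (P 0) = aeval x (P i))
    {a : Fin 4 → ℕ} (ha : ∀ i, Rep K x (z i) (a i)) : D ≤ a 1 + a 2 + a 3 := by
  obtain ⟨H, G, hH, hPG, hG, hu⟩ := h
  obtain ⟨G', hG', hG'0, hG'e⟩ := common_forms hz0 ha
  have hH0 : aeval x H ≠ 0 := by
    intro h
    exact h0 (by rw [hPG, map_mul, h, zero_mul])
  have hG0 : aeval x (G 0) ≠ 0 := by
    intro h
    exact h0 (by rw [hPG, map_mul, h, mul_zero])
  have hGe : ∀ i, z i * aeval x (G 0) = aeval x (G i) := by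
    intro i
    apply mul_left_cancel₀ hH0
    have := hz i
    rw [hPG 0, hPG i, map_mul, map_mul] at this
    rw [← this]; ring
  have hcross : ∀ i, G i * G' 0 = G' i * G 0 := by
    intro i
    have h3 : (G i * G' 0 - G' i * G 0).IsHomogeneous (D + (a 1 + a 2 + a 3)) := by
      have h4 := (hG' i).mul (hG 0)
      rw [Nat.add_comm (a 1 + a 2 + a 3) D] at h4
      exact ((hG i).mul (hG' 0)).sub h4
    have h5 := inj_of hx h3 (by
      rw [map_sub, map_mul, map_mul, ← hGe i, ← hG'e i]; ring)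
    exact sub_eq_zero.1 h5
  have hdvd : G 0 ∣ G' 0 := by
    apply red_assoc (P := fun i => G' 0 * G i) (G := G) (H := G' 0) (fun i => rfl) hu
    intro i
    refine ⟨G' i, ?_⟩
    show G' 0 * G i = G 0 * G' i
    rw [mul_comm, hcross, mul_comm]
  obtain ⟨S, hS⟩ := hdvd
  have hG'0' : G' 0 ≠ 0 := by
    intro h
    exact hG'0 (by rw [h, map_zero])
  have hG0' : G 0 ≠ 0 := by
    intro h
    exact hG0 (by rw [h, map_zero])
  obtain ⟨m, k, hmk, hm, hk⟩ := factor_hom (hS ▸ hG' 0) (hS ▸ hG'0')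
  have := hm.inj_right (hG 0) hG0'
  omega

end forms

end Pool.Agent.Q58.DG
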