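import Mathlib
import Pool.Agent.Q58.DG.Forms

/-!
The map of projective three-space and its degree sequence.
-/

set_option autoImplicit false
open MvPolynomial Filter Topology

namespace Pool.Agent.Q58.DG
open Pool.Agent.Helper993.CS

universe u

theorem coord_nonconst {K : Type u} [Field K] [CharZero K] :
    xx K 1 ∉ Set.range (algebraMap K (LL K)) := by
  rintro ⟨c, hc⟩
  have h := (good_xx (K := K)).ind.transcendental 0
  apply h
  show IsAlgebraic K (xx K 1)
  rw [← hc]
  exact isAlgebraic_algebraMap c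

theorem rep_zero_const {K L : Type u} [Field K] [Field L] [Algebra K L] {x : Fin 4 → L} {z : L}
    (h : Rep K x z 0) : ∃ c : K, z = algebraMap K L c := by
  obtain ⟨P, Q, hP, hQ, hQ0, hz⟩ := h
  rw [← totalDegree_zero_iff_isHomogeneous, totalDegree_eq_zero_iff_eq_C] at hP hQ
  rw [hP, hQ, aeval_C, aeval_C] at hz
  rw [hQ, aeval_C] at hQ0
  refine ⟨coeff 0 P / coeff 0 Q, ?_⟩
  rw [map_div₀, eq_div_iff hQ0, hz]

/-- the map and the bounds for its degree sequence -/
theorem main (K : Type u) [Field K] [CharZero K] :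
    ∃ (d : ℕ) (f : Fin 4 → MvPolynomial (Fin 4) K),
      (∀ i, (f i).IsHomogeneous d) ∧ (∀ q, (∀ i, q ∣ f i) → IsUnit q) ∧
      AlgebraicIndependent K f ∧
      ∃ deg : ℕ → ℕ, (∀ n, RedDeg (iter f n) (deg n) ∧ ∀ d', RedDeg (iter f n) d' → d' = deg n) ∧
        (∀ n, 1 ≤ deg n) ∧ (∃ C : ℕ, ∀ n, 1 ≤ n → deg n ≤ C * n ^ 18) ∧
        ∃ C : ℕ, ∀ k : ℕ, 16 ^ k ≤ C * (deg (2 * 2 ^ k) + deg (2 ^ k) + 1) := by
  have hcL : CharZero (LL K) := charZero_of_injective_algebraMap (algebraMap K (LL K)).injective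
  have hx := good_xx (K := K)
  obtain ⟨φ, D⟩ := exists_dat K
  obtain ⟨d, f, hf, hu, h0, hφ⟩ := exists_forms hx φ
  have hit := iter_rel hf φ hx.one h0 hφ
  have hne : ∀ n, iter f n 0 ≠ 0 := by
    intro n h
    apply (hit n).1
    rw [h, map_zero]
  have hex : ∀ n, ∃ e, RedDeg (iter f n) e := fun n =>
    redDeg_exists (d ^ n) (iter f n) (iter_hom d f hf n) (hne n)
  choose deg hdeg using hex
  have hinj : ∀ n : ℕ, Function.Injective ((⇑φ)^[n]) := fun n => φ.toRingHom.injective.iterate n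
  have hrep : ∀ n i, Rep K (xx K) (φ^[n] (xx K i)) (deg n) := fun n i =>
    redDeg_rep (hdeg n) (hit n).1 ((hit n).2 i)
  refine ⟨d, f, hf, hu, forms_indep hx hf φ h0 hφ coord_nonconst, deg,
    fun n => ⟨hdeg n, fun d' hd' => redDeg_unique (iter f n) (hne n) d' (deg n) hd' (hdeg n)⟩,
    fun n => ?_, ?_, ?_⟩
  · by_contra hlt
    have h1 := hrep n 1
    have h2 : deg n = 0 := by omega
    rw [h2] at h1
    obtain ⟨c, hc⟩ := rep_zero_const h1
    have h3 : φ^[n] (algebraMap K (LL K) c) = algebraMap K (LL K) c := by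
      clear hc h1
      induction n with
      | zero => rfl
      | succ n ih =>
        have : ∀ m : ℕ, φ^[m] (algebraMap K (LL K) c) = algebraMap K (LL K) c := by
          intro m
          induction m with
          | zero => rfl
          | succ m ih => rw [Function.iterate_succ_apply', ih, AlgHom.commutes]
        exact this _
    apply coord_nonconst (K := K)
    exact ⟨c, hinj n (by rw [h3, hc])⟩
  · obtain ⟨C, hC⟩ := D.upper hx
    refine ⟨3 * C, fun n hn => ?_⟩
    have := redDeg_le hx (hdeg n) (hit n).1 (z := fun i => φ^[n] (xx K i))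
      (by show φ^[n] (xx K 0) = 1; rw [hx.one, iterate_map_one]) (hit n).2
      (a := fun _ => C * n ^ 18) (fun i => hC n hn i)
    calc deg n ≤ C * n ^ 18 + C * n ^ 18 + C * n ^ 18 := this
      _ = 3 * C * n ^ 18 := by ring
  · exact D.lower hx (nonconst K) deg (fun n => hrep n 3)

end Pool.Agent.Q58.DG
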